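import Mathlib
import Pool.Agent.D0H15.ZO.Pow

/-!
Subspaces which contain no sum of eigenvectors.
-/

set_option autoImplicit false

open Module TensorProduct

namespace Pool.Agent.D0H93.SY

variable {E : Type} [Field E]

/-- no nonzero element of `D` is a sum of eigenvectors of `Φ` (with nonzero eigenvalues) -/
def Good {M : Type} [AddCommGroup M] [Module E M] (Φ : Module.End E M) (D : Submodule E M) : Prop :=
  ∀ (B : Finset E) (p : E → M), (∀ β ∈ B, β ≠ 0) → (∀ β ∈ B, Φ (p β) = β • p β) →
    (∑ β ∈ B, p β) ∈ D → (∑ β ∈ B, p β) = 0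

lemma good_bot {M : Type} [AddCommGroup M] [Module E M] (Φ : Module.End E M) : Good Φ ⊥ :=
  fun _ _ _ _ h => (Submodule.mem_bot E).1 h

lemma good_pi {ι : Type} [Fintype ι] {M : ι → Type} [∀ i, AddCommGroup (M i)] [∀ i, Module E (M i)]
    (Φ : ∀ i, Module.End E (M i)) (D : ∀ i, Submodule E (M i)) (h : ∀ i, Good (Φ i) (D i)) :
    Good (LinearMap.pi fun i => Φ i ∘ₗ LinearMap.proj i : Module.End E (∀ i, M i))
      (Submodule.pi Set.univ D) := by
  intro B p hB hp hD
  funext i
  have h1 := h i B (fun β => p β i) hB (fun β hβ => by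
    have := congrFun (hp β hβ) i
    simpa using this) (by
    have := (Submodule.mem_pi.1 hD) i (Set.mem_univ i)
    simpa using this)
  simpa using h1

/-- the dimension bound -/
theorem good_bound [IsAlgClosed E] {M : Type} [AddCommGroup M] [Module E M] [FiniteDimensional E M]
    {Φ : Module.End E M} (hΦ : Function.Injective Φ) {D : Submodule E M} (hD : Good Φ D)
    (U : Submodule E M) (hU : U ∈ Φ.invtSubmodule) (hs : Module.End.IsSemisimple (Φ.restrict hU)) :
    finrank E U + finrank E D ≤ finrank E M := by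
  classical
  have hdis : U ⊓ D = ⊥ := by
    rw [eq_bot_iff]
    rintro x ⟨hxU, hxD⟩
    have hx : (⟨x, hxU⟩ : U) ∈ ⨆ μ : E, Module.End.eigenspace (Φ.restrict hU) μ := by
      rw [hs.iSup_eigenspace_eq_top]; trivial
    obtain ⟨f, hf, hfx⟩ := (Submodule.mem_iSup_iff_exists_finsupp _ _).1 hx
    have hfe : ∀ β, Φ (f β : M) = β • (f β : M) := by
      intro β
      have := Module.End.mem_eigenspace_iff.1 (hf β)
      exact congrArg Subtype.val this
    have hf0 : f 0 = 0 := by
      have h0 := hfe 0
      rw [zero_smul] at h0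
      have : (f 0 : M) = 0 := hΦ (by rw [h0, map_zero])
      exact Subtype.ext this
    have hsum : ∑ β ∈ f.support, (f β : M) = x := by
      have h2 : ((f.sum fun _ xi => xi : U) : M) = x := congrArg Subtype.val hfx
      rw [← h2, Finsupp.sum]
      simp
    have h1 := hD f.support (fun β => (f β : M)) (fun β hβ h0 => by
      rw [h0, Finsupp.mem_support_iff] at hβ
      exact hβ hf0) (fun β _ => hfe β) (by rw [hsum]; exact hxD)
    rw [hsum] at h1
    exact (Submodule.mem_bot E).2 h1
  have := Submodule.finrank_sup_add_finrank_inf_eq U D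
  rw [hdis, finrank_bot, add_zero] at this
  rw [← this]
  exact Submodule.finrank_le _

section coord

variable {W N : Type} [AddCommGroup W] [Module E W] [AddCommGroup N] [Module E N]
  {ι : Type} [Fintype ι] (b : Basis ι E W)

/-- the coordinate of an element of `W ⊗ N` at a basis vector of `W` -/
noncomputable def cf (i : ι) : (W ⊗[E] N) →ₗ[E] N :=
  (TensorProduct.lid E N).toLinearMap ∘ₗ (b.coord i).rTensor N

omit [Fintype ι] in
lemma cf_tmul (i : ι) (w : W) (n : N) : cf b i (w ⊗ₜ[E] n) = b.coord i w • n := by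
  simp [cf]

lemma cf_sum (x : W ⊗[E] N) : x = ∑ i, b i ⊗ₜ[E] cf b i x := by
  induction x with
  | zero => simp
  | tmul w n =>
    simp only [cf_tmul]
    rw [Finset.sum_congr rfl fun i _ => (TensorProduct.smul_tmul (b.coord i w) (b i) n).symm,
      ← TensorProduct.sum_tmul]
    congr 1
    exact (b.sum_repr w).symm
  | add x y hx hy =>
    simp only [map_add, TensorProduct.tmul_add, Finset.sum_add_distrib]
    rw [← hx, ← hy]

/-- the subspace `W ⊗ D` -/
noncomputable def ten (W : Type) [AddCommGroup W] [Module E W] (D : Submodule E N) : Submodule E (W ⊗[E] N) :=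
  LinearMap.range (D.subtype.lTensor W)

lemma tmul_mem {D : Submodule E N} {w : W} {n : N} (hn : n ∈ D) : w ⊗ₜ[E] n ∈ ten W D :=
  ⟨w ⊗ₜ[E] (⟨n, hn⟩ : D), by simp⟩

lemma cf_mem {D : Submodule E N} {x : W ⊗[E] N} (hx : x ∈ ten W D) (i : ι) : cf b i x ∈ D := by
  obtain ⟨y, rfl⟩ := hx
  induction y with
  | zero => simp
  | tmul w n =>
    rw [LinearMap.lTensor_tmul, cf_tmul]
    exact D.smul_mem _ n.2
  | add x y hx hy =>
    rw [map_add, map_add]
    exact D.add_mem hx hy

lemma map_mem {G : Module.End E W} {H : Module.End E N} {D D' : Submodule E N}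
    (h : ∀ n ∈ D, H n ∈ D') {x : W ⊗[E] N} (hx : x ∈ ten W D) : TensorProduct.map G H x ∈ ten W D' := by
  obtain ⟨y, rfl⟩ := hx
  induction y with
  | zero => simp
  | tmul w n =>
    rw [LinearMap.lTensor_tmul, TensorProduct.map_tmul]
    exact tmul_mem (h _ n.2)
  | add x y hx hy =>
    rw [map_add, map_add]
    exact Submodule.add_mem _ hx hy

lemma finrank_ten [FiniteDimensional E W] [FiniteDimensional E N] (D : Submodule E N) :
    finrank E (ten W D) = finrank E W * finrank E D := by
  unfold ten
  rw [LinearMap.finrank_range_of_inj, Module.finrank_tensorProduct]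
  exact Module.Flat.lTensor_preserves_injective_linearMap _ D.injective_subtype

/-- `H` sends `D_k` into `D_(k+1)`, and sums `∑ n_β` vanish if `∑ β ^ k n_β` lies in `D_k` for all `k` -/
def Run (H : Module.End E N) (D : ℕ → Submodule E N) : Prop :=
  (∀ k, ∀ n ∈ D k, H n ∈ D (k + 1)) ∧
  ∀ (B : Finset E) (p : E → N), (∀ β ∈ B, β ≠ 0) → (∀ k : ℕ, (∑ β ∈ B, β ^ k • p β) ∈ D k) →
      ∑ β ∈ B, p β = 0

omit [Fintype ι] in
theorem Run.good {H : Module.End E N} {D : ℕ → Submodule E N} (h : Run H D) : Good H (D 0) := by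
  intro B p hB hp h0
  refine h.2 B p hB fun k => ?_
  induction k with
  | zero => simpa using h0
  | succ k ih =>
    have := h.1 k _ ih
    rw [map_sum] at this
    convert this using 1
    refine Finset.sum_congr rfl fun β hβ => ?_
    rw [map_smul, hp β hβ, smul_smul, pow_succ]

theorem Run.ten [FiniteDimensional E W] {H : Module.End E N} {D : ℕ → Submodule E N} (h : Run H D)
    (G : Module.End E W) :
    Run (TensorProduct.map G H : Module.End E (W ⊗[E] N)) (fun k => ten W (D k)) := by
  refine ⟨fun k n hn => map_mem (h.1 k) hn, fun B p hB hp => ?_⟩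
  rw [cf_sum (finBasis E W) (∑ β ∈ B, p β)]
  refine Finset.sum_eq_zero fun i _ => ?_
  have h2 := h.2 B (fun β => cf (finBasis E W) i (p β)) hB (fun k => by
    have := cf_mem (finBasis E W) (hp k) i
    rw [map_sum] at this
    simpa using this)
  rw [map_sum, h2, TensorProduct.tmul_zero]

/-- the subspace `D ⊗ W` -/
noncomputable def ten' (W : Type) [AddCommGroup W] [Module E W] (D : Submodule E N) : Submodule E (N ⊗[E] W) :=
  (SY.ten W D).map (TensorProduct.comm E W N).toLinearMap

lemma finrank_ten' [FiniteDimensional E W] [FiniteDimensional E N] (D : Submodule E N) :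
    finrank E (ten' W D) = finrank E D * finrank E W := by
  unfold ten'
  rw [LinearEquiv.finrank_map_eq, finrank_ten, mul_comm]

theorem Run.ten' [FiniteDimensional E W] {H : Module.End E N} {D : ℕ → Submodule E N} (h : Run H D)
    (G : Module.End E W) :
    Run (TensorProduct.map H G : Module.End E (N ⊗[E] W)) (fun k => SY.ten' W (D k)) := by
  have hc : ∀ x : W ⊗[E] N, TensorProduct.map H G (TensorProduct.comm E W N x) =
      TensorProduct.comm E W N (TensorProduct.map G H x) := fun x => TensorProduct.map_comm H G x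
  have hr := h.ten (W := W) G
  refine ⟨?_, fun B p hB hp => ?_⟩
  · rintro k n ⟨x, hx, rfl⟩
    refine ⟨TensorProduct.map G H x, hr.1 k x hx, ?_⟩
    exact (hc x).symm
  · have h1 := hr.2 B (fun β => (TensorProduct.comm E W N).symm (p β)) hB (fun k => by
      obtain ⟨x, hx, hxe⟩ := hp k
      have h2 : (∑ β ∈ B, β ^ k • (TensorProduct.comm E W N).symm (p β)) = x := by
        apply (TensorProduct.comm E W N).injective
        rw [map_sum]
        simp only [map_smul, LinearEquiv.apply_symm_apply]
        exact hxe.symm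
      rw [h2]; exact hx)
    have h3 := congrArg (TensorProduct.comm E W N) h1
    rw [map_sum, map_zero] at h3
    simpa using h3

end coord

end Pool.Agent.D0H93.SY
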