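import Pool.Agent.D0H93.SY.Main

/-!
Symmetric and exterior powers of semisimple endomorphisms.
-/

set_option autoImplicit false

open Module TensorProduct

namespace Pool.Agent.D0H93.SY

variable {E : Type} [Field E]

open Pool.Agent.D0H15.ZO

lemma ext_ss [IsAlgClosed E] {M : Type} [AddCommGroup M] [Module E M] [FiniteDimensional E M]
    {F : Module.End E M} (hF : F.IsSemisimple) (j : ℕ) :
    Module.End.IsSemisimple (exteriorPower.map j F : Module.End E (⋀[E]^j M)) := by
  induction j with
  | zero =>
    apply ss_of_iSup
    rw [eq_top_iff]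
    intro x _
    apply Submodule.mem_iSup_of_mem (1 : E)
    rw [Module.End.mem_eigenspace_iff, one_smul]
    have h : exteriorPower.map 0 F = LinearMap.id := by
      apply exteriorPower.linearMap_ext
      ext a
      simp only [LinearMap.compAlternatingMap_apply, exteriorPower.map_apply_ιMulti, LinearMap.id_apply]
      have : (⇑F ∘ a) = a := funext fun i => i.elim0
      rw [this]
    rw [h]; rfl
  | succ j ih =>
    apply ss_of_iSup
    rw [eq_top_iff]
    rintro ⟨x, hx⟩ _
    set S := ⨆ μ : E, Module.End.eigenspace (exteriorPower.map (j + 1) F : Module.End E (⋀[E]^(j + 1) M)) μ with hS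
    have key : ∀ y ∈ LinearMap.range (ExteriorAlgebra.ι E (M := M)) * (⋀[E]^j M),
        ∃ h : y ∈ (⋀[E]^(j + 1) M), (⟨y, h⟩ : ⋀[E]^(j + 1) M) ∈ S := by
      intro y hy
      induction hy using Submodule.mul_induction_on' with
      | mem_mul_mem m hm n hn =>
        obtain ⟨v, rfl⟩ := hm
        refine ⟨(wed v j ⟨n, hn⟩).2, ?_⟩
        change wed v j ⟨n, hn⟩ ∈ S
        have hv : v ∈ ⨆ μ : E, F.eigenspace μ := by rw [hF.iSup_eigenspace_eq_top]; trivial
        have hn' : (⟨n, hn⟩ : ⋀[E]^j M) ∈ ⨆ μ : E, Module.End.eigenspace (exteriorPower.map j F : Module.End E (⋀[E]^j M)) μ := by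
          rw [ih.iSup_eigenspace_eq_top]; trivial
        revert hn'
        generalize (⟨n, hn⟩ : ⋀[E]^j M) = z
        intro hz
        have hadd : ∀ (a b : M) (z : ⋀[E]^j M), wed (a + b) j z = wed a j z + wed b j z := by
          intro a b z
          apply Subtype.ext
          change ExteriorAlgebra.ι E (a + b) * _ = ExteriorAlgebra.ι E a * _ + ExteriorAlgebra.ι E b * _
          rw [map_add, add_mul]
        induction hv using Submodule.iSup_induction' with
        | zero =>
          have : wed (0 : M) j z = 0 := by
            apply Subtype.ext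
            change ExteriorAlgebra.ι E (0 : M) * _ = 0
            rw [map_zero, zero_mul]
          rw [this]; exact zero_mem _
        | add a b _ _ ha hb => rw [hadd]; exact add_mem ha hb
        | mem μ a ha =>
          induction hz using Submodule.iSup_induction' with
          | zero => rw [map_zero]; exact zero_mem _
          | add x y _ _ hx hy => rw [map_add]; exact add_mem hx hy
          | mem ν z hz =>
            apply Submodule.mem_iSup_of_mem (μ * ν)
            rw [Module.End.mem_eigenspace_iff] at ha hz ⊢
            apply Subtype.ext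
            rw [map_coe, wed_coe, map_mul, ExteriorAlgebra.map_apply_ι, ← map_coe, ha, hz]
            rw [Submodule.coe_smul, Submodule.coe_smul, map_smul, smul_mul_smul_comm, wed_coe]
      | add x _ y _ hx hy =>
        obtain ⟨h1, h2⟩ := hx
        obtain ⟨h3, h4⟩ := hy
        exact ⟨add_mem h1 h3, add_mem h2 h4⟩
    have hx' : x ∈ LinearMap.range (ExteriorAlgebra.ι E (M := M)) * (⋀[E]^j M) := by
      have h : (⋀[E]^(j + 1) M) = LinearMap.range (ExteriorAlgebra.ι E (M := M)) * (⋀[E]^j M) := by
        change LinearMap.range (ExteriorAlgebra.ι E (M := M)) ^ (j + 1) = _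
        rw [pow_succ']
      rwa [h] at hx
    obtain ⟨_, h2⟩ := key x hx'
    exact h2

lemma sym_ss [IsAlgClosed E] {V : Type} [AddCommGroup V] [Module E V] [FiniteDimensional E V] {r : ℕ}
    (b : Basis (Fin r) E V) {F : Module.End E V} (hF : F.IsSemisimple) (m : ℕ) :
    Module.End.IsSemisimple (symOp (LinearMap.toMatrix b b F) m) := by
  induction m with
  | zero =>
    apply ss_of_iSup
    rw [eq_top_iff]
    rintro ⟨x, hx⟩ _
    apply Submodule.mem_iSup_of_mem (1 : E)
    rw [Module.End.mem_eigenspace_iff, one_smul]
    apply Subtype.ext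
    rw [symOp_coe]
    have h0 : x ∈ (1 : Submodule E (MvPolynomial (Fin r) E)) := by
      have := MvPolynomial.homogeneousSubmodule_one_pow (σ := Fin r) (R := E) 0
      rw [pow_zero] at this
      rw [this]; exact hx
    obtain ⟨c, rfl⟩ := Submodule.mem_one.1 h0
    exact AlgHom.commutes _ c
  | succ m ih =>
    apply ss_of_iSup
    rw [eq_top_iff]
    rintro ⟨x, hx⟩ _
    set S := ⨆ μ : E, Module.End.eigenspace (symOp (LinearMap.toMatrix b b F) (m + 1)) μ with hS
    have key : ∀ y ∈ MvPolynomial.homogeneousSubmodule (Fin r) E 1 * MvPolynomial.homogeneousSubmodule (Fin r) E m,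
        ∃ h : y ∈ MvPolynomial.homogeneousSubmodule (Fin r) E (m + 1),
          (⟨y, h⟩ : MvPolynomial.homogeneousSubmodule (Fin r) E (m + 1)) ∈ S := by
      intro y hy
      induction hy using Submodule.mul_induction_on' with
      | mem_mul_mem p hp n hn =>
        rw [MvPolynomial.homogeneousSubmodule_one_eq_span_X, Submodule.mem_span_range_iff_exists_fun] at hp
        obtain ⟨c, rfl⟩ := hp
        have hc : (∑ i, c i • MvPolynomial.X i : MvPolynomial (Fin r) E) = lin c := by
          unfold lin
          exact Finset.sum_congr rfl fun i _ => MvPolynomial.smul_eq_C_mul _ _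
        rw [hc]
        obtain ⟨v, rfl⟩ := b.equivFun.surjective c
        refine ⟨(mulV (b.equivFun v) m ⟨n, hn⟩).2, ?_⟩
        change mulV (b.equivFun v) m ⟨n, hn⟩ ∈ S
        have hv : v ∈ ⨆ μ : E, F.eigenspace μ := by rw [hF.iSup_eigenspace_eq_top]; trivial
        have hn' : (⟨n, hn⟩ : SymP E r m) ∈ ⨆ μ : E, Module.End.eigenspace (symOp (LinearMap.toMatrix b b F) m) μ := by
          rw [ih.iSup_eigenspace_eq_top]; trivial
        clear hc
        revert hn'
        generalize (⟨n, hn⟩ : SymP E r m) = z
        intro hz
        have hadd : ∀ (a b : Fin r → E) (z : SymP E r m), mulV (a + b) m z = mulV a m z + mulV b m z := by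
          intro a b z
          apply Subtype.ext
          change lin (a + b) * _ = lin a * _ + lin b * _
          rw [lin_add, add_mul]
        induction hv using Submodule.iSup_induction' with
        | zero =>
          have : mulV (b.equivFun (0 : V)) m z = 0 := by
            apply Subtype.ext
            change lin (b.equivFun (0 : V)) * _ = 0
            have : lin (b.equivFun (0 : V)) = 0 := by rw [map_zero]; unfold lin; simp
            rw [this, zero_mul]
          rw [this]; exact zero_mem _
        | add a a' _ _ ha hb => rw [map_add, hadd]; exact add_mem ha hb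
        | mem μ a ha =>
          induction hz using Submodule.iSup_induction' with
          | zero => rw [map_zero]; exact zero_mem _
          | add x y _ _ hx hy => rw [map_add]; exact add_mem hx hy
          | mem ν z hz =>
            apply Submodule.mem_iSup_of_mem (μ * ν)
            rw [Module.End.mem_eigenspace_iff] at ha hz ⊢
            have h1 := LinearMap.congr_fun (symOp_mulV (LinearMap.toMatrix b b F) (b.equivFun a) m) z
            rw [LinearMap.comp_apply, LinearMap.comp_apply, hz] at h1
            have h2 : (LinearMap.toMatrix b b F).mulVec (b.equivFun a) = μ • b.equivFun a := by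
              have := LinearMap.toMatrix_mulVec_repr b b F a
              rw [ha, map_smul] at this
              exact this
            rw [h1, h2, map_smul]
            apply Subtype.ext
            change ν • (lin (μ • b.equivFun a) * (z : MvPolynomial (Fin r) E)) =
              (μ * ν) • (lin (b.equivFun a) * (z : MvPolynomial (Fin r) E))
            rw [lin_smul, MvPolynomial.smul_eq_C_mul, MvPolynomial.smul_eq_C_mul, map_mul]
            ring
      | add x _ y _ hx hy =>
        obtain ⟨h1, h2⟩ := hx
        obtain ⟨h3, h4⟩ := hy
        exact ⟨add_mem h1 h3, add_mem h2 h4⟩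
    have hx' : x ∈ MvPolynomial.homogeneousSubmodule (Fin r) E 1 * MvPolynomial.homogeneousSubmodule (Fin r) E m := by
      have h := MvPolynomial.homogeneousSubmodule_one_pow (σ := Fin r) (R := E) (m + 1)
      rw [pow_succ', MvPolynomial.homogeneousSubmodule_one_pow] at h
      rw [h]; exact hx
    obtain ⟨_, h2⟩ := key x hx'
    exact h2

lemma prod_ss [IsAlgClosed E] {V W : Type} [AddCommGroup V] [Module E V] [FiniteDimensional E V]
    [AddCommGroup W] [Module E W] [FiniteDimensional E W] {F : Module.End E V} {G : Module.End E W}
    (hF : F.IsSemisimple) (hG : G.IsSemisimple) : Module.End.IsSemisimple (LinearMap.prodMap F G) := by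
  apply ss_of_iSup
  rw [eq_top_iff]
  rintro ⟨v, w⟩ -
  have hv : v ∈ ⨆ μ : E, F.eigenspace μ := by rw [hF.iSup_eigenspace_eq_top]; trivial
  have hw : w ∈ ⨆ μ : E, G.eigenspace μ := by rw [hG.iSup_eigenspace_eq_top]; trivial
  have e : ((v, w) : V × W) = (v, 0) + (0, w) := by simp
  rw [e]
  refine add_mem ?_ ?_
  · clear e
    induction hv using Submodule.iSup_induction' with
    | zero => exact zero_mem _
    | add a b _ _ ha hb =>
      have : ((a + b, 0) : V × W) = (a, 0) + (b, 0) := by simp
      rw [this]; exact add_mem ha hb
    | mem μ a ha =>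
      apply Submodule.mem_iSup_of_mem μ
      rw [Module.End.mem_eigenspace_iff] at ha ⊢
      rw [LinearMap.prodMap_apply, ha, map_zero]
      simp
  · clear e
    induction hw using Submodule.iSup_induction' with
    | zero => exact zero_mem _
    | add a b _ _ ha hb =>
      have : ((0, a + b) : V × W) = (0, a) + (0, b) := by simp
      rw [this]; exact add_mem ha hb
    | mem μ a ha =>
      apply Submodule.mem_iSup_of_mem μ
      rw [Module.End.mem_eigenspace_iff] at ha ⊢
      rw [LinearMap.prodMap_apply, ha, map_zero]
      simp

lemma pi_ss [IsAlgClosed E] {ι : Type} [Fintype ι] {M : ι → Type} [∀ i, AddCommGroup (M i)]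
    [∀ i, Module E (M i)] [∀ i, FiniteDimensional E (M i)] (Φ : ∀ i, Module.End E (M i))
    (h : ∀ i, (Φ i).IsSemisimple) : (piEnd Φ).IsSemisimple := by
  classical
  apply ss_of_iSup
  rw [eq_top_iff]
  intro x _
  have e : x = ∑ i, Pi.single i (x i) := (Finset.univ_sum_single x).symm
  rw [e]
  refine sum_mem fun i _ => ?_
  have hx : x i ∈ ⨆ μ : E, (Φ i).eigenspace μ := by rw [(h i).iSup_eigenspace_eq_top]; trivial
  revert hx
  generalize x i = z
  intro hz
  induction hz using Submodule.iSup_induction' with
  | zero => rw [Pi.single_zero]; exact zero_mem _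
  | add a b _ _ ha hb => rw [Pi.single_add]; exact add_mem ha hb
  | mem μ a ha =>
    apply Submodule.mem_iSup_of_mem μ
    rw [Module.End.mem_eigenspace_iff] at ha ⊢
    funext k
    change Φ k (Pi.single (M := M) i a k) = μ • (Pi.single (M := M) i a k)
    by_cases hk : k = i
    · subst hk
      rw [Pi.single_eq_same, ha]
    · rw [Pi.single_eq_of_ne hk, map_zero, smul_zero]

end Pool.Agent.D0H93.SY
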