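import Mathlib

/-!
Numbers of monomials.
-/

set_option autoImplicit false

namespace Pool.Agent.D0H93.SY

lemma mc_succ (r m : ℕ) : (m + 1) * Nat.multichoose r (m + 1) = (m + r) * Nat.multichoose r m := by
  rcases r with _ | r
  · rcases m with _ | m
    · simp
    · rw [Nat.multichoose_zero_succ, Nat.multichoose_zero_succ]; simp
  · rw [Nat.multichoose_eq, Nat.multichoose_eq]
    have e1 : r + 1 + (m + 1) - 1 = (r + m) + 1 := by omega
    have e2 : r + 1 + m - 1 = r + m := by omega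
    rw [e1, e2]
    have := Nat.add_one_mul_choose_eq (r + m) m
    have e3 : m + (r + 1) = r + m + 1 := by ring
    rw [e3, this, mul_comm]

lemma mc_step (r t m : ℕ) (hr : 1 ≤ r) (ht : t ≤ m + 1) :
    t * Nat.multichoose r (m + 1) ≤ (t + (r - 1)) * Nat.multichoose r m := by
  obtain ⟨q, rfl⟩ : ∃ q, r = q + 1 := ⟨r - 1, by omega⟩
  have h := mc_succ (q + 1) m
  rw [Nat.add_sub_cancel]
  have h1 : (m + 1) * (t * Nat.multichoose (q + 1) (m + 1)) ≤ (m + 1) * ((t + q) * Nat.multichoose (q + 1) m) := by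
    have e : (m + 1) * (t * Nat.multichoose (q + 1) (m + 1)) = t * (m + (q + 1)) * Nat.multichoose (q + 1) m := by
      rw [mul_left_comm, h]; ring
    rw [e, ← mul_assoc]
    refine Nat.mul_le_mul_right _ ?_
    have : t * q ≤ (m + 1) * q := Nat.mul_le_mul_right _ ht
    nlinarith
  exact Nat.le_of_mul_le_mul_left h1 (Nat.succ_pos m)

/-- `(n - s) b_n ≤ (n - s + r - 1) b_(n-1)` -/
lemma sum_step (r s n : ℕ) (hr : 1 ≤ r) (hs : s ≤ n + 1) :
    (n + 1 - s) * ∑ j ∈ Finset.range (n + 1 + 1), Nat.choose s j * Nat.multichoose r (n + 1 - j) ≤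
      (n + 1 - s + (r - 1)) * ∑ j ∈ Finset.range (n + 1), Nat.choose s j * Nat.multichoose r (n - j) := by
  rw [Finset.sum_range_succ, mul_add, Finset.mul_sum, Finset.mul_sum]
  have h1 : (n + 1 - s) * (Nat.choose s (n + 1) * Nat.multichoose r (n + 1 - (n + 1))) = 0 := by
    rcases Nat.lt_or_ge s (n + 1) with h | h
    · rw [Nat.choose_eq_zero_of_lt h]; simp
    · have : n + 1 - s = 0 := by omega
      rw [this, zero_mul]
  rw [h1, add_zero]
  refine Finset.sum_le_sum fun j hj => ?_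
  have hj' := Finset.mem_range.1 hj
  rcases Nat.lt_or_ge s j with h | h
  · rw [Nat.choose_eq_zero_of_lt h]; simp
  · have e : n + 1 - j = (n - j) + 1 := by omega
    rw [e]
    have := mc_step r (n + 1 - s) (n - j) hr (by omega)
    calc (n + 1 - s) * (Nat.choose s j * Nat.multichoose r (n - j + 1))
        = Nat.choose s j * ((n + 1 - s) * Nat.multichoose r (n - j + 1)) := by ring
      _ ≤ Nat.choose s j * ((n + 1 - s + (r - 1)) * Nat.multichoose r (n - j)) := Nat.mul_le_mul_left _ this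
      _ = _ := by ring

lemma mc_mono (r m : ℕ) (hr : 1 ≤ r) : Nat.multichoose r m ≤ Nat.multichoose r (m + 1) := by
  have h := mc_succ r m
  have h1 : (m + 1) * Nat.multichoose r m ≤ (m + 1) * Nat.multichoose r (m + 1) := by
    rw [h]
    exact Nat.mul_le_mul_right _ (by omega)
  exact Nat.le_of_mul_le_mul_left h1 (Nat.succ_pos m)

lemma mc_le (r m m' : ℕ) (hr : 1 ≤ r) (h : m ≤ m') : Nat.multichoose r m ≤ Nat.multichoose r m' := by
  induction h with
  | refl => exact le_rfl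
  | step _ ih => exact ih.trans (mc_mono r _ hr)

/-- consecutive values -/
lemma mc_ratio (r k m : ℕ) (hr : 1 ≤ r) :
    ((m : ℝ) + r - k * (r - 1)) * Nat.multichoose r (m + k) ≤ ((m : ℝ) + r) * Nat.multichoose r m := by
  have hr' : (1 : ℝ) ≤ r := by exact_mod_cast hr
  have hmr : (0 : ℝ) < (m : ℝ) + r := by positivity
  induction k with
  | zero => simp
  | succ k ih =>
    by_cases hA : (m : ℝ) + r - k * (r - 1) ≤ 0
    · have h0 : (m : ℝ) + r - ((k + 1 : ℕ) : ℝ) * (r - 1) ≤ 0 := by push_cast; nlinarith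
      have h1 : (0 : ℝ) ≤ Nat.multichoose r (m + (k + 1)) := Nat.cast_nonneg _
      have h2 : (0 : ℝ) ≤ ((m : ℝ) + r) * Nat.multichoose r m := by positivity
      exact le_trans (mul_nonpos_of_nonpos_of_nonneg h0 h1) h2
    · push Not at hA
      refine le_trans ?_ ih
      have h := mc_succ r (m + k)
      have h' : ((m : ℝ) + k + 1) * Nat.multichoose r (m + (k + 1)) = ((m : ℝ) + k + r) * Nat.multichoose r (m + k) := by
        have := congrArg (fun x : ℕ => (x : ℝ)) h
        push_cast at this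
        rw [← add_assoc m k 1]
        linarith
      set x : ℝ := ((Nat.multichoose r (m + (k + 1)) : ℕ) : ℝ) with hx
      set y : ℝ := ((Nat.multichoose r (m + k) : ℕ) : ℝ) with hy
      have hx0 : 0 ≤ x := Nat.cast_nonneg _
      have hp : (0 : ℝ) < (m : ℝ) + k + r := by positivity
      have h3 : y = x - (r - 1) / ((m : ℝ) + k + r) * x := by
        field_simp
        linarith
      have h4 : ((r : ℝ) - 1) / ((m : ℝ) + k + r) ≤ (r - 1) / ((m : ℝ) + r) := by
        apply div_le_div_of_nonneg_left (by linarith) hmr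
        have : (0 : ℝ) ≤ k := Nat.cast_nonneg _
        linarith
      have h5 : x - (r - 1) / ((m : ℝ) + r) * x ≤ y := by
        rw [h3]
        have := mul_le_mul_of_nonneg_right h4 hx0
        linarith
      have h6 : ((m : ℝ) + r - k * (r - 1)) * (x - (r - 1) / ((m : ℝ) + r) * x) ≤ ((m : ℝ) + r - k * (r - 1)) * y :=
        mul_le_mul_of_nonneg_left h5 hA.le
      refine le_trans ?_ h6
      have h7 : ((m : ℝ) + r - k * (r - 1)) * ((r - 1) / ((m : ℝ) + r)) ≤ r - 1 := by
        rw [mul_div_assoc', div_le_iff₀ hmr]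
        have : (0 : ℝ) ≤ k * (r - 1) := mul_nonneg (Nat.cast_nonneg _) (by linarith)
        nlinarith
      have h8 := mul_le_mul_of_nonneg_right h7 hx0
      push_cast
      nlinarith

lemma choose_sum (s n : ℕ) (h : s ≤ n) : ∑ j ∈ Finset.range (n + 1), Nat.choose s j = 2 ^ s := by
  rw [← Nat.sum_range_choose s]
  symm
  apply Finset.sum_subset (by intro x; simp; omega)
  intro x _ hx
  simp only [Finset.mem_range, not_lt] at hx
  exact Nat.choose_eq_zero_of_lt (by omega)

/-- the odd codimension is asymptotically at least a quarter -/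
lemma odd_num (r s : ℕ) (hr : 1 ≤ r) (hs : 2 ≤ s) (ε : ℝ) (hε : 0 < ε) : ∃ N : ℕ, ∀ n ≥ N,
    (1 / 4 - ε) * ((∑ j ∈ Finset.range (n + 1 + 1), Nat.choose s j * Nat.multichoose r (n + 1 - j) : ℕ) : ℝ) ≤
      ((∑ i ∈ Finset.range (n + 1), Nat.choose (s - 2) i * Nat.multichoose r (n - i) : ℕ) : ℝ) := by
  obtain ⟨N0, hN0⟩ := exists_nat_gt ((s - 1 : ℝ) * (r - 1) / (4 * ε))
  refine ⟨N0 + s, fun n hn => ?_⟩
  have hr' : (1 : ℝ) ≤ r := by exact_mod_cast hr
  have hs' : (2 : ℝ) ≤ s := by exact_mod_cast hs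
  -- lower bound
  have h1 : 2 ^ (s - 2) * Nat.multichoose r (n + 2 - s) ≤
      ∑ i ∈ Finset.range (n + 1), Nat.choose (s - 2) i * Nat.multichoose r (n - i) := by
    rw [← choose_sum (s - 2) n (by omega), Finset.sum_mul]
    refine Finset.sum_le_sum fun i hi => ?_
    have hi' := Finset.mem_range.1 hi
    rcases Nat.lt_or_ge (s - 2) i with h | h
    · rw [Nat.choose_eq_zero_of_lt h]; simp
    · exact Nat.mul_le_mul_left _ (mc_le r _ _ hr (by omega))
  have h2 : ∑ j ∈ Finset.range (n + 1 + 1), Nat.choose s j * Nat.multichoose r (n + 1 - j) ≤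
      2 ^ s * Nat.multichoose r (n + 1) := by
    rw [← choose_sum s (n + 1) (by omega), Finset.sum_mul]
    exact Finset.sum_le_sum fun j _ => Nat.mul_le_mul_left _ (mc_le r _ _ hr (by omega))
  obtain ⟨m, hm⟩ : ∃ m, m = n + 2 - s := ⟨_, rfl⟩
  have hmk : n + 1 = m + (s - 1) := by omega
  have h3 := mc_ratio r (s - 1) m hr
  rw [← hmk] at h3
  rw [← hm] at h1
  have hmN : (N0 : ℝ) ≤ m := by exact_mod_cast (by omega : N0 ≤ m)
  have hpos : (0 : ℝ) < (m : ℝ) + r := by positivity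
  set x : ℝ := ((Nat.multichoose r (n + 1) : ℕ) : ℝ) with hx
  set y : ℝ := ((Nat.multichoose r m : ℕ) : ℝ) with hy
  have hx0 : 0 ≤ x := Nat.cast_nonneg _
  have hc : ((s - 1 : ℕ) : ℝ) = (s : ℝ) - 1 := by
    rw [Nat.cast_sub (by omega)]; simp
  rw [hc] at h3
  have h4 : (1 - 4 * ε) * x ≤ y := by
    have h5 : ((s : ℝ) - 1) * (r - 1) ≤ 4 * ε * (m + r) := by
      rw [div_lt_iff₀ (by linarith)] at hN0
      nlinarith
    have h6 : (m + r : ℝ) * ((1 - 4 * ε) * x) ≤ (m + r) * y := by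
      refine le_trans ?_ h3
      have := mul_le_mul_of_nonneg_right h5 hx0
      nlinarith
    exact le_of_mul_le_mul_left h6 hpos
  have h7 : ((∑ j ∈ Finset.range (n + 1 + 1), Nat.choose s j * Nat.multichoose r (n + 1 - j) : ℕ) : ℝ) ≤ 2 ^ s * x := by
    have := h2
    calc _ ≤ ((2 ^ s * Nat.multichoose r (n + 1) : ℕ) : ℝ) := by exact_mod_cast this
      _ = 2 ^ s * x := by push_cast; rfl
  have h8 : 2 ^ (s - 2) * y ≤ ((∑ i ∈ Finset.range (n + 1), Nat.choose (s - 2) i * Nat.multichoose r (n - i) : ℕ) : ℝ) := by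
    calc 2 ^ (s - 2) * y = ((2 ^ (s - 2) * Nat.multichoose r m : ℕ) : ℝ) := by push_cast; rfl
      _ ≤ _ := by exact_mod_cast h1
  have e2 : (2 : ℝ) ^ s = 4 * 2 ^ (s - 2) := by
    have : s = (s - 2) + 2 := by omega
    conv_lhs => rw [this, pow_add]
    ring
  refine le_trans ?_ h8
  by_cases hneg : 1 / 4 - ε ≤ 0
  · have h9 : (1 / 4 - ε) * ((∑ j ∈ Finset.range (n + 1 + 1), Nat.choose s j * Nat.multichoose r (n + 1 - j) : ℕ) : ℝ) ≤ 0 :=
      mul_nonpos_of_nonpos_of_nonneg hneg (Nat.cast_nonneg _)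
    have h10 : 0 ≤ (2 : ℝ) ^ (s - 2) * y := by positivity
    linarith
  · push Not at hneg
    refine le_trans (mul_le_mul_of_nonneg_left h7 hneg.le) ?_
    rw [e2]
    have h11 : (0 : ℝ) < 2 ^ (s - 2) := by positivity
    calc (1 / 4 - ε) * (4 * 2 ^ (s - 2) * x) = 2 ^ (s - 2) * ((1 - 4 * ε) * x) := by ring
      _ ≤ 2 ^ (s - 2) * y := mul_le_mul_of_nonneg_left h4 h11.le

end Pool.Agent.D0H93.SY
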