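import Pool.Agent.D0H93.SY.Fin
import Pool.Agent.D0H93.SY.Conv
import Pool.Agent.D0H93.SY.Num

/-!
The proportions and the criterion.
-/

set_option autoImplicit false

open Module TensorProduct

namespace Pool.Agent.D0H93.SY

variable {E : Type} [Field E]

theorem frob_ss [IsAlgClosed E] {X Y : CVar E} (hX : IsSS X) (hY : IsSS Y) (n : ℕ) : (Frob Y X n).IsSemisimple := by
  refine pi_ss (fun j : Fin (n + 1) => partF Y X n j) fun j => ?_
  have h1 : Module.End.IsSemisimple (extF Y X j) :=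
    Pool.Agent.D0H15.ZO.map_ss (prod_ss hY.1 hY.2) (ext_ss hX.2 j)
  exact Pool.Agent.D0H15.ZO.map_ss h1 (sym_ss _ hX.1 _)

/-- the rate in the even case -/
theorem rate [IsAlgClosed E] [CharZero E] (X : CVar E) (h : ¬ X.Fe.IsSemisimple) (Y : CVar E) (n : ℕ)
    (hn : finrank E X.Od ≤ n) (U : Submodule E (Coh Y X n)) (hU : U ∈ (Frob Y X n).invtSubmodule)
    (hs : Module.End.IsSemisimple ((Frob Y X n).restrict hU)) :
    (n - finrank E X.Od + (finrank E X.Ev - 1)) * finrank E U ≤ (finrank E X.Ev - 1) * finrank E (Coh Y X n) := by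
  have hr : 1 ≤ finrank E X.Ev := by
    by_contra hc
    have h0 : finrank E X.Ev = 0 := by omega
    apply h
    have : Subsingleton X.Ev := Module.finrank_zero_iff.1 h0
    have : X.Fe = 0 := Subsingleton.elim _ _
    rw [this]
    exact Module.End.isSemisimple_zero
  rcases n with _ | n
  · have h0 : 0 - finrank E X.Od = 0 := by omega
    rw [h0, zero_add]
    exact Nat.mul_le_mul_left _ (Submodule.finrank_le U)
  · have h1 := even_law X h Y n U hU hs
    have h2 := sum_step (finrank E X.Ev) (finrank E X.Od) n hr hn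
    rw [finrank_coh] at h1 ⊢
    rw [finrank_coh] at h1
    obtain ⟨t, ht⟩ : ∃ t, t = n + 1 - finrank E X.Od := ⟨_, rfl⟩
    obtain ⟨q, hq⟩ : ∃ q, q = finrank E X.Ev - 1 := ⟨_, rfl⟩
    rw [← ht, ← hq] at h2 ⊢
    set b1 := ∑ j ∈ Finset.range (n + 1 + 1), Nat.choose (finrank E X.Od) j * Nat.multichoose (finrank E X.Ev) (n + 1 - j)
    set b0 := ∑ j ∈ Finset.range (n + 1), Nat.choose (finrank E X.Od) j * Nat.multichoose (finrank E X.Ev) (n - j)
    set u := finrank E U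
    set c := betti Y
    have h3 : (t + q) * u + (t + q) * (c * b0) ≤ (t + q) * (c * b1) := by
      rw [← mul_add]; exact Nat.mul_le_mul_left _ h1
    have h4 : c * (t * b1) ≤ c * ((t + q) * b0) := Nat.mul_le_mul_left _ h2
    have e1 : (t + q) * (c * b1) = c * (t * b1) + q * (c * b1) := by ring
    have e2 : (t + q) * (c * b0) = c * ((t + q) * b0) := by ring
    rw [e1, e2] at h3
    omega

lemma coh_pos (X Y : CVar E) (hX : 1 ≤ finrank E X.Ev) (hY : 0 < betti Y) (n : ℕ) : 0 < finrank E (Coh Y X n) := by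
  rw [finrank_coh]
  refine Nat.mul_pos hY ?_
  refine lt_of_lt_of_le ?_ (Finset.single_le_sum (f := fun j => Nat.choose (finrank E X.Od) j *
    Nat.multichoose (finrank E X.Ev) (n - j)) (fun _ _ => Nat.zero_le _) (Finset.mem_range.2 (Nat.succ_pos n)))
  have := mc_le (finrank E X.Ev) 0 n hX (Nat.zero_le _)
  rw [Nat.multichoose_zero_right] at this
  simp only [Nat.choose_zero_right, one_mul, Nat.sub_zero]
  exact this

/-- the criterion -/
theorem criterion [IsAlgClosed E] [CharZero E] (r s : ℕ) (hr : 1 ≤ r) (ε : ℝ) (hε : 0 < ε) : ∃ N : ℕ,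
    ∀ X : CVar E, finrank E X.Ev = r → finrank E X.Od = s → ∀ Y : CVar E, 0 < betti Y → ∀ n ≥ N,
      (HasSS (Frob Y X n) (ε * finrank E (Coh Y X n)) → X.Fe.IsSemisimple) ∧
      (HasSS (Frob Y X n) ((3 / 4 + ε) * finrank E (Coh Y X n)) → IsSS X) := by
  obtain ⟨N1, hN1⟩ := exists_nat_gt ((r - 1 : ℝ) / ε)
  obtain ⟨N2, hN2⟩ : ∃ N : ℕ, 2 ≤ s → ∀ n ≥ N,
    (1 / 4 - ε / 2) * ((∑ j ∈ Finset.range (n + 1 + 1), Nat.choose s j * Nat.multichoose r (n + 1 - j) : ℕ) : ℝ) ≤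
      ((∑ i ∈ Finset.range (n + 1), Nat.choose (s - 2) i * Nat.multichoose r (n - i) : ℕ) : ℝ) := by
    by_cases hs : 2 ≤ s
    · obtain ⟨N, hN⟩ := odd_num r s hr hs (ε / 2) (by linarith)
      exact ⟨N, fun _ => hN⟩
    · exact ⟨0, fun h => absurd h hs⟩
  refine ⟨N1 + s + N2 + 1, fun X hXr hXs Y hY n hn => ?_⟩
  have hb := coh_pos X Y (by omega) hY n
  have hb' : (0 : ℝ) < finrank E (Coh Y X n) := by exact_mod_cast hb
  have hev : HasSS (Frob Y X n) (ε * finrank E (Coh Y X n)) → X.Fe.IsSemisimple := by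
    rintro ⟨U, hU, hs, hd⟩
    by_contra hcon
    have h1 := rate X hcon Y n (by omega) U hU hs
    rw [hXr, hXs] at h1
    have h2 : ((n - s : ℕ) + (r - 1 : ℕ) : ℝ) * finrank E U ≤ (r - 1 : ℕ) * finrank E (Coh Y X n) := by
      exact_mod_cast h1
    have h3 : ((r - 1 : ℕ) : ℝ) = r - 1 := by rw [Nat.cast_sub hr]; simp
    have h4 : (N1 : ℝ) ≤ ((n - s : ℕ) : ℝ) := by exact_mod_cast (by omega : N1 ≤ n - s)
    rw [h3] at h2
    have hr' : (0 : ℝ) ≤ (r : ℝ) - 1 := by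
      have : (1 : ℝ) ≤ r := by exact_mod_cast hr
      linarith
    rw [div_lt_iff₀ hε] at hN1
    have h5 : ((r : ℝ) - 1) * finrank E (Coh Y X n) < N1 * ε * finrank E (Coh Y X n) :=
      mul_lt_mul_of_pos_right hN1 hb'
    have h6 : (N1 : ℝ) * (ε * finrank E (Coh Y X n)) ≤ ((n - s : ℕ) + (r - 1) : ℝ) * finrank E U := by
      refine mul_le_mul (by linarith) hd (by positivity) (by positivity)
    linarith
  refine ⟨hev, ?_⟩
  rintro ⟨U, hU, hs, hd⟩
  refine ⟨hev ⟨U, hU, hs, le_trans (by nlinarith) hd⟩, ?_⟩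
  by_contra hcon
  have hs2 : 2 ≤ s := by
    obtain ⟨l, hbk⟩ := exists_hasBlock X.injO hcon
    obtain ⟨v, v', hv', h1, h2⟩ := hbk
    have := (block_li hv' h1 h2).fintype_card_le_finrank
    simpa [hXs] using this
  obtain ⟨m, rfl⟩ : ∃ m, n = m + 1 := ⟨n - 1, by omega⟩
  have h1 := odd_law X hcon Y m U hU hs
  have h2 := hN2 hs2 m (by omega)
  have h3 : finrank E (Coh Y X (m + 1)) = betti Y *
    ∑ j ∈ Finset.range (m + 1 + 1), Nat.choose s j * Nat.multichoose r (m + 1 - j) := by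
    rw [finrank_coh, hXr, hXs]
  rw [hXr, hXs] at h1
  have h4 : (finrank E U : ℝ) + betti Y * ((∑ i ∈ Finset.range (m + 1), Nat.choose (s - 2) i * Nat.multichoose r (m - i) : ℕ) : ℝ) ≤
      finrank E (Coh Y X (m + 1)) := by exact_mod_cast h1
  have h5 : (finrank E (Coh Y X (m + 1)) : ℝ) = betti Y *
      ((∑ j ∈ Finset.range (m + 1 + 1), Nat.choose s j * Nat.multichoose r (m + 1 - j) : ℕ) : ℝ) := by
    rw [h3]; push_cast; ring
  have h6 := mul_le_mul_of_nonneg_left h2 (Nat.cast_nonneg (betti Y) : (0 : ℝ) ≤ betti Y)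
  have h7 : (betti Y : ℝ) * ((1 / 4 - ε / 2) * ((∑ j ∈ Finset.range (m + 1 + 1), Nat.choose s j * Nat.multichoose r (m + 1 - j) : ℕ) : ℝ)) =
      (1 / 4 - ε / 2) * finrank E (Coh Y X (m + 1)) := by rw [h5]; ring
  rw [h7] at h6
  nlinarith

end Pool.Agent.D0H93.SY
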