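import Mathlib
import Pool.Agent.D0H89.OF.Exp
import Pool.Agent.D0H93.SY.Abs

/-!
Exterior powers.
-/

set_option autoImplicit false

open Module TensorProduct

namespace Pool.Agent.D0H93.SY

variable {E : Type} [Field E]

section ext
variable {M R : Type} [AddCommGroup M] [Module E M] [AddCommGroup R] [Module E R]

lemma map_coe {M' : Type} [AddCommGroup M'] [Module E M'] (f : M →ₗ[E] M') (j : ℕ) (x : ⋀[E]^j M) :
    ((exteriorPower.map j f x : ⋀[E]^j M') : ExteriorAlgebra E M') = ExteriorAlgebra.map f (x : ExteriorAlgebra E M) := by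
  have h : (⋀[E]^j M').subtype ∘ₗ exteriorPower.map j f =
      (ExteriorAlgebra.map f).toLinearMap ∘ₗ (⋀[E]^j M).subtype := by
    apply exteriorPower.linearMap_ext
    ext a
    simp only [LinearMap.compAlternatingMap_apply, LinearMap.comp_apply, exteriorPower.map_apply_ιMulti,
      Submodule.coe_subtype, exteriorPower.ιMulti_apply_coe, AlgHom.toLinearMap_apply,
      ExteriorAlgebra.map_apply_ιMulti]
  exact LinearMap.congr_fun h x

/-- `x ↦ v ∧ x` -/
noncomputable def wed (v : M) (j : ℕ) : (⋀[E]^j M) →ₗ[E] (⋀[E]^(j + 1) M) :=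
  { toFun := fun x => ⟨ExteriorAlgebra.ι E v * x, by
      have h : (⋀[E]^(j + 1) M) = LinearMap.range (ExteriorAlgebra.ι E (M := M)) * (⋀[E]^j M) := by
        change LinearMap.range (ExteriorAlgebra.ι E (M := M)) ^ (j + 1) = _
        rw [pow_succ']
      rw [h]
      exact Submodule.mul_mem_mul ⟨v, rfl⟩ x.2⟩
    map_add' := fun x y => by
      apply Subtype.ext
      exact mul_add _ _ _
    map_smul' := fun c x => by
      apply Subtype.ext
      exact mul_smul_comm _ _ _ }

lemma wed_coe (v : M) (j : ℕ) (x : ⋀[E]^j M) :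
    ((wed v j x : ⋀[E]^(j + 1) M) : ExteriorAlgebra E M) = ExteriorAlgebra.ι E v * x := rfl

/-- contraction kills the exterior algebra of the kernel -/
lemma contract_zero (f : R →ₗ[E] M) (d : Module.Dual E M) (hd : ∀ x, d (f x) = 0) (x : ExteriorAlgebra E R) :
    CliffordAlgebra.contractLeft (Q := (0 : QuadraticForm E M)) d (ExteriorAlgebra.map f x) = 0 := by
  induction x using CliffordAlgebra.left_induction with
  | algebraMap c =>
    have : ExteriorAlgebra.map f (algebraMap E _ c) = algebraMap E _ c := AlgHom.commutes _ _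
    rw [this]
    exact CliffordAlgebra.contractLeft_algebraMap (0 : QuadraticForm E M) d c
  | add x y hx hy => rw [map_add, map_add, hx, hy, add_zero]
  | ι_mul x m hx =>
    have : ExteriorAlgebra.map f (CliffordAlgebra.ι (0 : QuadraticForm E R) m * x) =
        CliffordAlgebra.ι (0 : QuadraticForm E M) (f m) * ExteriorAlgebra.map f x := by
      rw [map_mul]
      congr 1
      exact ExteriorAlgebra.map_apply_ι f m
    rw [this, CliffordAlgebra.contractLeft_ι_mul, hx, hd, zero_smul, mul_zero, sub_zero]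

lemma map_inj_of (f : R →ₗ[E] M) (hf : Function.Injective f) : Function.Injective (ExteriorAlgebra.map f) := by
  obtain ⟨g, hg⟩ := LinearMap.exists_leftInverse_of_injective f (LinearMap.ker_eq_bot.2 hf)
  exact ExteriorAlgebra.map_injective ⟨g, hg⟩

/-- `v' ∧ v ∧ x = 0` implies `x = 0` for `x` in the exterior algebra of a complement -/
lemma wed_wed (f : R →ₗ[E] M) (hf : Function.Injective f) (v v' : M) (d d' : Module.Dual E M)
    (hd : ∀ x, d (f x) = 0) (hd' : ∀ x, d' (f x) = 0) (h1 : d v = 1)
    (h3 : d' v' = 1) (h4 : d' v = 0) (x : ExteriorAlgebra E R)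
    (h : ExteriorAlgebra.ι E v' * (ExteriorAlgebra.ι E v * ExteriorAlgebra.map f x) = 0) : x = 0 := by
  have e1 := CliffordAlgebra.contractLeft_ι_mul (Q := (0 : QuadraticForm E M)) (d := d') v'
    (ExteriorAlgebra.ι E v * ExteriorAlgebra.map f x)
  have e2 := CliffordAlgebra.contractLeft_ι_mul (Q := (0 : QuadraticForm E M)) (d := d') v (ExteriorAlgebra.map f x)
  have e3 := CliffordAlgebra.contractLeft_ι_mul (Q := (0 : QuadraticForm E M)) (d := d) v (ExteriorAlgebra.map f x)
  rw [contract_zero f d' hd', h4, zero_smul, mul_zero, sub_zero] at e2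
  rw [contract_zero f d hd, h1, one_smul, mul_zero, sub_zero] at e3
  have h' : CliffordAlgebra.ι (0 : QuadraticForm E M) v' *
    (ExteriorAlgebra.ι E v * ExteriorAlgebra.map f x) = 0 := h
  have e2' : CliffordAlgebra.contractLeft (Q := (0 : QuadraticForm E M)) d'
    (ExteriorAlgebra.ι E v * ExteriorAlgebra.map f x) = 0 := e2
  rw [h', map_zero, e2', h3, one_smul, mul_zero, sub_zero] at e1
  have e3' : CliffordAlgebra.contractLeft (Q := (0 : QuadraticForm E M)) d
    (ExteriorAlgebra.ι E v * ExteriorAlgebra.map f x) = ExteriorAlgebra.map f x := e3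
  rw [← e1, map_zero] at e3'
  exact map_inj_of f hf (by rw [← e3', map_zero])

/-- a complement of the plane spanned by `v, v'` and the dual vectors -/
lemma exists_compl [FiniteDimensional E M] {v v' : M} (hv : LinearIndependent E ![v, v']) :
    ∃ (R : Submodule E M) (d d' : Module.Dual E M), finrank E R = finrank E M - 2 ∧
      (∀ x : R, d x = 0) ∧ (∀ x : R, d' x = 0) ∧ d v = 1 ∧ d v' = 0 ∧ d' v' = 1 ∧ d' v = 0 := by
  classical
  have hf : LinearMap.ker (Fintype.linearCombination E (![v, v'] : Fin 2 → M)) = ⊥ :=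
    LinearMap.ker_eq_bot.2 (linearIndependent_iff_injective_fintypeLinearCombination.1 hv)
  obtain ⟨g, hg⟩ := LinearMap.exists_leftInverse_of_injective _ hf
  have hgv : g v = Pi.single 0 1 := by
    have := LinearMap.congr_fun hg (Pi.single 0 1)
    rw [LinearMap.comp_apply, Fintype.linearCombination_apply_single] at this
    simpa using this
  have hgv' : g v' = Pi.single 1 1 := by
    have := LinearMap.congr_fun hg (Pi.single 1 1)
    rw [LinearMap.comp_apply, Fintype.linearCombination_apply_single] at this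
    simpa using this
  have hsur : Function.Surjective g := fun y => ⟨_, LinearMap.congr_fun hg y⟩
  refine ⟨LinearMap.ker g, LinearMap.proj 0 ∘ₗ g, LinearMap.proj 1 ∘ₗ g, ?_, ?_, ?_, ?_, ?_, ?_, ?_⟩
  · have := LinearMap.finrank_range_add_finrank_ker g
    rw [LinearMap.range_eq_top.2 hsur, finrank_top, Module.finrank_fin_fun] at this
    omega
  · intro x
    have : g x = 0 := x.2
    simp [this]
  · intro x
    have : g x = 0 := x.2
    simp [this]
  · simp [hgv]
  · simp [hgv']
  · simp [hgv']
  · simp [hgv]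

/-- the image of `x ↦ v ∧ x` on the exterior power of the subspace `R` -/
noncomputable def Dx (R : Submodule E M) (v : M) (j : ℕ) : Submodule E (⋀[E]^(j + 1) M) :=
  LinearMap.range (wed v j ∘ₗ exteriorPower.map j R.subtype)

lemma run_ext_aux [CharZero E] [FiniteDimensional E M] {l : E} (hl : l ≠ 0) (v v' : M) (R : Submodule E M)
    (d d' : Module.Dual E M) (hd : ∀ x : R, d x = 0) (hd' : ∀ x : R, d' x = 0) (h1 : d v = 1)
    (h3 : d' v' = 1) (h4 : d' v = 0)
    (F : Module.End E M) (hF : ∀ k : ℕ, (F ^ k) v = l ^ k • (v + ((k : E) / l) • v')) (j : ℕ) :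
    Run (exteriorPower.map (j + 1) F) (fun k => (Dx R v j).map ((exteriorPower.map (j + 1) F : Module.End E _) ^ k)) := by
  classical
  set H : Module.End E (⋀[E]^(j + 1) M) := exteriorPower.map (j + 1) F with hH
  refine ⟨?_, fun B p hB hp => ?_⟩
  · rintro k n ⟨x, hx, rfl⟩
    exact ⟨x, hx, by rw [pow_succ', Module.End.mul_apply]⟩
  · have hHk : ∀ (k : ℕ) (x : ⋀[E]^(j + 1) M), (((H ^ k) x : ⋀[E]^(j + 1) M) : ExteriorAlgebra E M) =
        ExteriorAlgebra.map (F ^ k) (x : ExteriorAlgebra E M) := by
      intro k x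
      induction k with
      | zero =>
        rw [pow_zero, pow_zero, Module.End.one_apply]
        have : ExteriorAlgebra.map (1 : Module.End E M) = AlgHom.id E _ := ExteriorAlgebra.map_id
        rw [this]; rfl
      | succ k ih =>
        rw [pow_succ', pow_succ', Module.End.mul_apply, hH, map_coe, ← hH, ih]
        have : ExteriorAlgebra.map (F * F ^ k) = (ExteriorAlgebra.map F).comp (ExteriorAlgebra.map (F ^ k)) :=
          (ExteriorAlgebra.map_comp_map _ _).symm
        rw [this]; rfl
    have hk : ∀ k : ℕ, ∑ β ∈ B, β ^ k • (ExteriorAlgebra.ι E v * (p β : ExteriorAlgebra E M) +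
        ((k : E) / l) • (ExteriorAlgebra.ι E v' * (p β : ExteriorAlgebra E M))) = 0 := by
      intro k
      obtain ⟨x, ⟨y, rfl⟩, hxe⟩ := hp k
      have e1 : ExteriorAlgebra.ι E ((F ^ k) v) * ((∑ β ∈ B, β ^ k • p β : ⋀[E]^(j + 1) M) : ExteriorAlgebra E M) = 0 := by
        rw [← hxe, hHk]
        rw [LinearMap.comp_apply, wed_coe]
        rw [← ExteriorAlgebra.map_apply_ι, ← map_mul, ← mul_assoc, ExteriorAlgebra.ι_sq_zero, zero_mul, map_zero]
      rw [hF, map_smul, map_add, map_smul, smul_mul_assoc, smul_eq_zero] at e1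
      have e2 := e1.resolve_left (pow_ne_zero k hl)
      rw [Submodule.coe_sum, Finset.mul_sum] at e2
      rw [← e2]
      refine Finset.sum_congr rfl fun β _ => ?_
      rw [Submodule.coe_smul, mul_smul_comm, add_mul, smul_mul_assoc]
    have hv' : ∀ β ∈ B, ExteriorAlgebra.ι E v' * (p β : ExteriorAlgebra E M) = 0 := by
      intro β hβ
      rw [← Module.forall_dual_apply_eq_zero_iff E]
      intro φ
      have hQ := Pool.Agent.D0H89.OF.exp_poly B hB
        (fun β => Polynomial.C (φ (ExteriorAlgebra.ι E v * (p β : ExteriorAlgebra E M))) +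
          Polynomial.C (φ (ExteriorAlgebra.ι E v' * (p β : ExteriorAlgebra E M)) / l) * Polynomial.X) (fun k => by
          have := congrArg φ (hk k)
          rw [map_sum, map_zero] at this
          rw [← this]
          refine Finset.sum_congr rfl fun γ _ => ?_
          rw [map_smul, map_add, map_smul, Polynomial.eval_add, Polynomial.eval_C, Polynomial.eval_mul,
            Polynomial.eval_C, Polynomial.eval_X, smul_eq_mul, smul_eq_mul]
          ring) β hβ
      have h5 := congrArg (fun q : Polynomial E => q.coeff 1) hQ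
      simp only [Polynomial.coeff_add, Polynomial.coeff_C_succ, Polynomial.coeff_mul_X, Polynomial.coeff_zero,
        Polynomial.coeff_C_zero, zero_add] at h5
      have h6 : φ (ExteriorAlgebra.ι E v' * (p β : ExteriorAlgebra E M)) / l = 0 := by
        simpa using h5
      exact (div_eq_zero_iff.1 h6).resolve_right hl
    obtain ⟨x, ⟨y, rfl⟩, hxe⟩ := hp 0
    have h0 : (∑ β ∈ B, p β) = wed v j (exteriorPower.map j R.subtype y) := by
      have : (∑ β ∈ B, β ^ 0 • p β) = ∑ β ∈ B, p β := Finset.sum_congr rfl fun β _ => by rw [pow_zero, one_smul]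
      rw [← this, ← hxe, pow_zero]; rfl
    have h7 : ExteriorAlgebra.ι E v' * (ExteriorAlgebra.ι E v *
        ExteriorAlgebra.map R.subtype (y : ExteriorAlgebra E R)) = 0 := by
      rw [← map_coe, ← wed_coe, ← h0, Submodule.coe_sum, Finset.mul_sum]
      exact Finset.sum_eq_zero hv'
    have h8 := wed_wed R.subtype R.injective_subtype v v' d d' hd hd' h1 h3 h4 _ h7
    have h9 : y = 0 := Subtype.ext h8
    rw [h0, h9, map_zero, map_zero]

lemma finrank_Dx [FiniteDimensional E M] (v v' : M) (R : Submodule E M)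
    (d d' : Module.Dual E M) (hd : ∀ x : R, d x = 0) (hd' : ∀ x : R, d' x = 0) (h1 : d v = 1)
    (h3 : d' v' = 1) (h4 : d' v = 0) (j : ℕ) :
    finrank E (Dx R v j) = Nat.choose (finrank E R) j := by
  unfold Dx
  rw [LinearMap.finrank_range_of_inj, exteriorPower.finrank_eq]
  rw [← LinearMap.ker_eq_bot, LinearMap.ker_eq_bot']
  intro y hy
  rw [LinearMap.comp_apply] at hy
  have h7 : ExteriorAlgebra.ι E v' * (ExteriorAlgebra.ι E v *
      ExteriorAlgebra.map R.subtype (y : ExteriorAlgebra E R)) = 0 := by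
    rw [← map_coe, ← wed_coe, hy]
    exact mul_zero _
  exact Subtype.ext (wed_wed R.subtype R.injective_subtype v v' d d' hd hd' h1 h3 h4 _ h7)

end ext

end Pool.Agent.D0H93.SY
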