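import Pool.Agent.D0H93.SY.Sym
import Pool.Agent.D0H93.SY.Ext

/-!
The cohomology of complete varieties over a finite field and of `Y × Sym^n X`, with the Frobenius.
-/

set_option autoImplicit false

open Module TensorProduct

namespace Pool.Agent.D0H93.SY

/-- The `ℓ`-adic cohomology of a complete variety over a finite field: `Ev` in the even and `Od` in the odd
degrees, with the Frobenius automorphisms `Fe`, `Fo`. -/
structure CVar (E : Type) [Field E] where
  Ev : Type
  Od : Type
  [grpE : AddCommGroup Ev]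
  [modE : Module E Ev]
  [finE : FiniteDimensional E Ev]
  [grpO : AddCommGroup Od]
  [modO : Module E Od]
  [finO : FiniteDimensional E Od]
  Fe : Module.End E Ev
  Fo : Module.End E Od
  injE : Function.Injective Fe
  injO : Function.Injective Fo

attribute [instance] CVar.grpE CVar.modE CVar.finE CVar.grpO CVar.modO CVar.finO

variable {E : Type} [Field E]

section layers
variable (E)
variable (A B : Type) [AddCommGroup A] [Module E A] [AddCommGroup B] [Module E B]

/-- the tensor product `A ⊗ B` -/
def Tn : Type := A ⊗[E] B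

noncomputable instance : AddCommGroup (Tn E A B) := inferInstanceAs (AddCommGroup (A ⊗[E] B))

noncomputable instance : Module E (Tn E A B) := inferInstanceAs (Module E (A ⊗[E] B))

instance [FiniteDimensional E A] [FiniteDimensional E B] : FiniteDimensional E (Tn E A B) :=
  inferInstanceAs (FiniteDimensional E (A ⊗[E] B))

/-- the exterior power `⋀^j A` -/
def Ex (j : ℕ) : Type := ⋀[E]^j A

noncomputable instance (j : ℕ) : AddCommGroup (Ex E A j) := inferInstanceAs (AddCommGroup (⋀[E]^j A))

noncomputable instance (j : ℕ) : Module E (Ex E A j) := inferInstanceAs (Module E (⋀[E]^j A))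

instance (j : ℕ) [FiniteDimensional E A] : FiniteDimensional E (Ex E A j) :=
  inferInstanceAs (FiniteDimensional E (⋀[E]^j A))

variable {E A B}

/-- the tensor product of two endomorphisms -/
noncomputable def tn (F : Module.End E A) (G : Module.End E B) : Module.End E (Tn E A B) :=
  (TensorProduct.map F G : (A ⊗[E] B) →ₗ[E] (A ⊗[E] B))

/-- the exterior power of an endomorphism -/
noncomputable def ex (F : Module.End E A) (j : ℕ) : Module.End E (Ex E A j) :=
  (exteriorPower.map j F : (⋀[E]^j A) →ₗ[E] (⋀[E]^j A))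

/-- the matrix of an endomorphism in the basis `finBasis` -/
noncomputable def mat [FiniteDimensional E A] (F : Module.End E A) :
    Matrix (Fin (finrank E A)) (Fin (finrank E A)) E :=
  LinearMap.toMatrix (finBasis E A) (finBasis E A) F

end layers

/-- `H^*(Y)` -/
def Tot (Y : CVar E) : Type := Y.Ev × Y.Od

noncomputable instance (Y : CVar E) : AddCommGroup (Tot Y) := inferInstanceAs (AddCommGroup (Y.Ev × Y.Od))

noncomputable instance (Y : CVar E) : Module E (Tot Y) := inferInstanceAs (Module E (Y.Ev × Y.Od))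

instance (Y : CVar E) : FiniteDimensional E (Tot Y) := inferInstanceAs (FiniteDimensional E (Y.Ev × Y.Od))

/-- the Frobenius on `H^*(Y)` -/
noncomputable def totF (Y : CVar E) : Module.End E (Tot Y) :=
  (LinearMap.prodMap Y.Fe Y.Fo : (Y.Ev × Y.Od) →ₗ[E] (Y.Ev × Y.Od))

/-- `H^*(Y) ⊗ ⋀^j H^odd(X)` -/
def Exo (Y X : CVar E) (j : ℕ) : Type := Tn E (Tot Y) (Ex E X.Od j)

noncomputable instance (Y X : CVar E) (j : ℕ) : AddCommGroup (Exo Y X j) :=
  inferInstanceAs (AddCommGroup (Tn E (Tot Y) (Ex E X.Od j)))

noncomputable instance (Y X : CVar E) (j : ℕ) : Module E (Exo Y X j) :=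
  inferInstanceAs (Module E (Tn E (Tot Y) (Ex E X.Od j)))

instance (Y X : CVar E) (j : ℕ) : FiniteDimensional E (Exo Y X j) :=
  inferInstanceAs (FiniteDimensional E (Tn E (Tot Y) (Ex E X.Od j)))

/-- the Frobenius on `H^*(Y) ⊗ ⋀^j H^odd(X)` -/
noncomputable def extF (Y X : CVar E) (j : ℕ) : Module.End E (Exo Y X j) := tn (totF Y) (ex X.Fo j)

/-- the contribution of `⋀^j H^odd(X) ⊗ Sym^(n-j) H^ev(X)` to the cohomology of `Y × Sym^n X` -/
def Part (Y X : CVar E) (n j : ℕ) : Type := Tn E (Exo Y X j) (SymP E (finrank E X.Ev) (n - j))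

noncomputable instance (Y X : CVar E) (n j : ℕ) : AddCommGroup (Part Y X n j) :=
  inferInstanceAs (AddCommGroup (Tn E (Exo Y X j) (SymP E (finrank E X.Ev) (n - j))))

noncomputable instance (Y X : CVar E) (n j : ℕ) : Module E (Part Y X n j) :=
  inferInstanceAs (Module E (Tn E (Exo Y X j) (SymP E (finrank E X.Ev) (n - j))))

instance (Y X : CVar E) (n j : ℕ) : FiniteDimensional E (Part Y X n j) :=
  inferInstanceAs (FiniteDimensional E (Tn E (Exo Y X j) (SymP E (finrank E X.Ev) (n - j))))

/-- the Frobenius on `Part Y X n j` -/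
noncomputable def partF (Y X : CVar E) (n j : ℕ) : Module.End E (Part Y X n j) :=
  tn (extF Y X j) (symOp (mat X.Fe) (n - j))

/-- the cohomology of `Y × Sym^n X` (Künneth and Macdonald): the sum over `j ≤ n` of
`H^*(Y) ⊗ ⋀^j H^odd(X) ⊗ Sym^(n-j) H^ev(X)` -/
def Coh (Y X : CVar E) (n : ℕ) : Type := ∀ j : Fin (n + 1), Part Y X n j

noncomputable instance (Y X : CVar E) (n : ℕ) : AddCommGroup (Coh Y X n) :=
  inferInstanceAs (AddCommGroup (∀ j : Fin (n + 1), Part Y X n j))

noncomputable instance (Y X : CVar E) (n : ℕ) : Module E (Coh Y X n) :=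
  inferInstanceAs (Module E (∀ j : Fin (n + 1), Part Y X n j))

instance (Y X : CVar E) (n : ℕ) : FiniteDimensional E (Coh Y X n) :=
  inferInstanceAs (FiniteDimensional E (∀ j : Fin (n + 1), Part Y X n j))

/-- the Frobenius on the cohomology of `Y × Sym^n X` -/
noncomputable def Frob (Y X : CVar E) (n : ℕ) : Module.End E (Coh Y X n) :=
  (LinearMap.pi fun j => partF Y X n j ∘ₗ LinearMap.proj j :
    (∀ j : Fin (n + 1), Part Y X n j) →ₗ[E] (∀ j : Fin (n + 1), Part Y X n j))

/-- `b(Y)`, the dimension of `H^*(Y)` -/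
noncomputable def betti (Y : CVar E) : ℕ := finrank E Y.Ev + finrank E Y.Od

/-- the multiplicity of the eigenvalue `μ` -/
noncomputable def mult {V : Type} [AddCommGroup V] [Module E V] (F : Module.End E V) (μ : E) : ℕ :=
  finrank E (F.maxGenEigenspace μ)

/-- the dimension of the eigenspace of `μ` -/
noncomputable def eig {V : Type} [AddCommGroup V] [Module E V] (F : Module.End E V) (μ : E) : ℕ :=
  finrank E (F.eigenspace μ)

/-- the Frobenius is semisimple on `H^*(X)` -/
def IsSS (X : CVar E) : Prop := X.Fe.IsSemisimple ∧ X.Fo.IsSemisimple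

/-- there is a stable subspace of dimension at least `d` on which `Φ` is semisimple -/
def HasSS {M : Type} [AddCommGroup M] [Module E M] (Φ : Module.End E M) (d : ℝ) : Prop :=
  ∃ (U : Submodule E M) (hU : U ∈ Φ.invtSubmodule), Module.End.IsSemisimple (Φ.restrict hU) ∧ d ≤ finrank E U

/-- each stable subspace on which `Φ` is semisimple has codimension at least `c` -/
def SSCodim {M : Type} [AddCommGroup M] [Module E M] (Φ : Module.End E M) (c : ℕ) : Prop :=
  ∀ (U : Submodule E M) (hU : U ∈ Φ.invtSubmodule), Module.End.IsSemisimple (Φ.restrict hU) →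
    finrank E U + c ≤ finrank E M

end Pool.Agent.D0H93.SY
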