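import Pool.Agent.D0H93.SY.Law

/-!
The laws for `Y × Sym^n X`.
-/

set_option autoImplicit false

open Module TensorProduct

namespace Pool.Agent.D0H93.SY

variable {E : Type} [Field E]

section inj
variable {r : ℕ}

lemma lin_single (j : Fin r) : lin (Pi.single j (1 : E)) = MvPolynomial.X j := by
  unfold lin
  rw [Finset.sum_eq_single j]
  · simp
  · intro i _ hi
    rw [Pi.single_eq_of_ne hi, map_zero, zero_mul]
  · intro h; exact absurd (Finset.mem_univ j) h

lemma subst_X (A : Matrix (Fin r) (Fin r) E) (j : Fin r) : subst A (MvPolynomial.X j) = lin fun i => A i j := by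
  unfold subst
  rw [MvPolynomial.aeval_X]

lemma subst_subst {A B : Matrix (Fin r) (Fin r) E} (h : B * A = 1) (p : MvPolynomial (Fin r) E) :
    subst B (subst A p) = p := by
  have : (subst B).comp (subst A) = AlgHom.id E (MvPolynomial (Fin r) E) := by
    apply MvPolynomial.algHom_ext
    intro j
    rw [AlgHom.comp_apply, subst_X, subst_lin]
    have h2 : B.mulVec (fun i => A i j) = Pi.single j 1 := by
      funext i
      have h3 := congrFun (congrFun h i) j
      rw [Matrix.mul_apply, Matrix.one_apply] at h3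
      rw [Pi.single_apply]
      exact h3
    rw [h2, lin_single]
    rfl
  exact AlgHom.congr_fun this p

lemma symOp_inj {V : Type} [AddCommGroup V] [Module E V] [FiniteDimensional E V] {F : Module.End E V}
    (hF : Function.Injective F) (b : Basis (Fin r) E V) (m : ℕ) :
    Function.Injective (symOp (LinearMap.toMatrix b b F) m) := by
  intro x y hxy
  set g : V →ₗ[E] V := (LinearEquiv.ofInjectiveEndo F hF).symm.toLinearMap with hg
  have h1 : LinearMap.toMatrix b b g * LinearMap.toMatrix b b F = 1 := by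
    rw [← LinearMap.toMatrix_comp, ← LinearMap.toMatrix_id b]
    congr 1
    refine LinearMap.ext fun z => ?_
    exact (LinearEquiv.ofInjectiveEndo F hF).symm_apply_apply z
  have h2 : subst (LinearMap.toMatrix b b F) (x : MvPolynomial (Fin r) E) =
      subst (LinearMap.toMatrix b b F) (y : MvPolynomial (Fin r) E) := congrArg Subtype.val hxy
  apply Subtype.ext
  rw [← subst_subst h1 (x : MvPolynomial (Fin r) E), h2, subst_subst h1]

end inj

lemma extF_inj (Y X : CVar E) (j : ℕ) : Function.Injective (extF Y X j) := by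
  have h1 : Function.Injective (LinearMap.prodMap Y.Fe Y.Fo) := Function.Injective.prodMap Y.injE Y.injO
  have h2 : Function.Injective (exteriorPower.map j X.Fo) := exteriorPower.map_injective_field X.injO
  exact Pool.Agent.D0H15.ZO.map_inj h1 h2

lemma partF_inj (Y X : CVar E) (n j : ℕ) : Function.Injective (partF Y X n j) :=
  Pool.Agent.D0H15.ZO.map_inj (extF_inj Y X j) (symOp_inj X.injE _ _)

lemma frob_inj (Y X : CVar E) (n : ℕ) : Function.Injective (Frob Y X n) := by
  intro x y hxy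
  funext j
  exact partF_inj Y X n j (congrFun hxy j)

lemma finrank_ext (Y X : CVar E) (j : ℕ) : finrank E (Exo Y X j) =
    betti Y * Nat.choose (finrank E X.Od) j := by
  change finrank E ((Y.Ev × Y.Od) ⊗[E] (⋀[E]^j X.Od)) = _
  rw [Module.finrank_tensorProduct, exteriorPower.finrank_eq, Module.finrank_prod]
  rfl

lemma finrank_part (Y X : CVar E) (n j : ℕ) : finrank E (Part Y X n j) =
    betti Y * Nat.choose (finrank E X.Od) j * Nat.multichoose (finrank E X.Ev) (n - j) := by
  change finrank E ((Exo Y X j) ⊗[E] (SymP E (finrank E X.Ev) (n - j))) = _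
  rw [Module.finrank_tensorProduct, finrank_ext, finrank_SymP]

lemma finrank_coh' (Y X : CVar E) (n : ℕ) : finrank E (Coh Y X n) = ∑ j : Fin (n + 1), finrank E (Part Y X n j) := by
  change finrank E (∀ j : Fin (n + 1), Part Y X n j) = _
  rw [Module.finrank_pi_fintype]

/-- the dimension of the cohomology of `Y × Sym^n X` -/
theorem finrank_coh (Y X : CVar E) (n : ℕ) : finrank E (Coh Y X n) =
    betti Y * ∑ j ∈ Finset.range (n + 1), Nat.choose (finrank E X.Od) j * Nat.multichoose (finrank E X.Ev) (n - j) := by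
  rw [finrank_coh', Finset.mul_sum, ← Fin.sum_univ_eq_sum_range
    (fun j => betti Y * (Nat.choose (finrank E X.Od) j * Nat.multichoose (finrank E X.Ev) (n - j)))]
  refine Finset.sum_congr rfl fun j _ => ?_
  rw [finrank_part, mul_assoc]

lemma eig_frob (Y X : CVar E) (n : ℕ) (μ : E) : eig (Frob Y X n) μ = ∑ j : Fin (n + 1), eig (partF Y X n j) μ :=
  eig_pi (fun j : Fin (n + 1) => partF Y X n j) μ

lemma mult_frob (Y X : CVar E) (n : ℕ) (μ : E) : mult (Frob Y X n) μ = ∑ j : Fin (n + 1), mult (partF Y X n j) μ :=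
  mult_pi (fun j : Fin (n + 1) => partF Y X n j) μ

lemma eig_le_mult {V : Type} [AddCommGroup V] [Module E V] [FiniteDimensional E V] (F : Module.End E V) (μ : E) :
    eig F μ ≤ mult F μ := by
  unfold eig mult
  refine Submodule.finrank_mono fun x hx => ?_
  refine (Module.End.mem_maxGenEigenspace _ _ _).2 ⟨1, ?_⟩
  rw [pow_one, LinearMap.sub_apply, LinearMap.smul_apply, Module.End.one_apply,
    Module.End.mem_eigenspace_iff.1 hx, sub_self]

lemma part_law [CharZero E] (X : CVar E) {l : E} (hl : l ≠ 0) {v v' : X.Ev} (hv : LinearIndependent E ![v, v'])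
    (h1 : X.Fe v = l • v + v') (h2 : X.Fe v' = l • v') (Y : CVar E) (n j : ℕ) (hj : j ≤ n) (μ : E) :
    eig (partF Y X (n + 1) j) μ + mult (partF Y X n j) (μ / l) ≤ mult (partF Y X (n + 1) j) μ :=
  comp_law hl hv h1 h2 (finBasis E X.Ev) (extF Y X j) (n - j) (n + 1 - j) (by omega) (partF_inj Y X (n + 1) j) μ

/-- the law for each eigenvalue -/
theorem refined [CharZero E] (X : CVar E) {l : E} (h : HasBlock X.Fe l) (Y : CVar E) (n : ℕ) (μ : E) :
    eig (Frob Y X (n + 1)) μ + mult (Frob Y X n) (μ / l) ≤ mult (Frob Y X (n + 1)) μ := by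
  have hl := h.ne_zero X.injE
  obtain ⟨v, v', hv', h1, h2⟩ := h
  have hli := block_li hv' h1 h2
  rw [eig_frob, mult_frob, mult_frob, Fin.sum_univ_castSucc, Fin.sum_univ_castSucc (n := n + 1)]
  have e1 := eig_le_mult (partF Y X (n + 1) (Fin.last (n + 1))) μ
  have e2 : ∑ j : Fin (n + 1), (eig (partF Y X (n + 1) (Fin.castSucc j)) μ + mult (partF Y X n j) (μ / l)) ≤
      ∑ j : Fin (n + 1), mult (partF Y X (n + 1) (Fin.castSucc j)) μ :=
    Finset.sum_le_sum fun j _ => part_law X hl hli h1 h2 Y n j (Nat.lt_succ_iff.1 j.2) μ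
  rw [Finset.sum_add_distrib] at e2
  omega

lemma pi_bound [IsAlgClosed E] {ι : Type} [Fintype ι] {M : ι → Type} [∀ i, AddCommGroup (M i)]
    [∀ i, Module E (M i)] [∀ i, FiniteDimensional E (M i)] (Φ : ∀ i, Module.End E (M i))
    (hΦ : Function.Injective (piEnd Φ)) (D : ∀ i, Submodule E (M i)) (hD : ∀ i, Good (Φ i) (D i)) :
    SSCodim (piEnd Φ) (∑ i, finrank E (D i)) := by
  intro U hU hs
  have hb := good_bound (M := ∀ i, M i) hΦ (good_pi _ _ hD) U hU hs
  rw [finrank_piSub] at hb
  exact hb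

/-- good subspaces of the parts give a bound for the sum -/
lemma frob_bound [IsAlgClosed E] (Y X : CVar E) (n : ℕ) (D : ∀ j : Fin (n + 1), Submodule E (Part Y X n j))
    (hD : ∀ j : Fin (n + 1), Good (partF Y X n j) (D j)) : SSCodim (Frob Y X n) (∑ j, finrank E (D j)) :=
  pi_bound (fun j : Fin (n + 1) => partF Y X n j) (frob_inj Y X n) D hD

lemma SSCodim.mono {M : Type} [AddCommGroup M] [Module E M] {Φ : Module.End E M} {c d : ℕ} (h : SSCodim Φ c)
    (hd : d ≤ c) : SSCodim Φ d := fun U hU hs => le_trans (Nat.add_le_add_left hd _) (h U hU hs)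

/-- the good subspace of a part, even case -/
noncomputable def Dev (Y X : CVar E) (v : X.Ev) (n j : ℕ) : Submodule E (Part Y X n j) :=
  (ten (Exo Y X j) (Dm ((finBasis E X.Ev).equivFun v) (n - j)) :
    Submodule E ((Exo Y X j) ⊗[E] (SymP E (finrank E X.Ev) (n - j))))

lemma Dev_good [CharZero E] (X : CVar E) {l : E} (hl : l ≠ 0) {v v' : X.Ev} (hv : LinearIndependent E ![v, v'])
    (h1 : X.Fe v = l • v + v') (h2 : X.Fe v' = l • v') (Y : CVar E) (n j : ℕ) :
    Good (partF Y X n j) (Dev Y X v n j) := by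
  have := ((run_sym hl hv h1 h2 (finBasis E X.Ev) (n - j)).ten (W := Exo Y X j) (extF Y X j)).good
  rw [pow_zero] at this
  exact this

lemma Dev_finrank (X : CVar E) {v : X.Ev} (hv : v ≠ 0) (Y : CVar E) (n j : ℕ) (hj : j ≤ n) :
    finrank E (Part Y X n j) ≤ finrank E (Dev Y X v (n + 1) j) := by
  have ha0 : (finBasis E X.Ev).equivFun v ≠ 0 := by
    intro h
    exact hv ((finBasis E X.Ev).equivFun.injective (by rw [h, map_zero]))
  have e : finrank E (Dev Y X v (n + 1) j) = finrank E (Exo Y X j) *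
      finrank E (Dm ((finBasis E X.Ev).equivFun v) (n + 1 - j)) := finrank_ten _
  rw [e, finrank_part, finrank_ext]
  refine Nat.mul_le_mul le_rfl ?_
  have hm' : n + 1 - j = (n - j) + 1 := by omega
  rw [hm', ← finrank_SymP (E := E)]
  exact finrank_Dm ha0 _

/-- the law for the even cohomology -/
theorem even_law [IsAlgClosed E] [CharZero E] (X : CVar E) (h : ¬ X.Fe.IsSemisimple) (Y : CVar E) (n : ℕ) :
    SSCodim (Frob Y X (n + 1)) (finrank E (Coh Y X n)) := by
  obtain ⟨l, hb⟩ := exists_hasBlock X.injE h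
  have hl := hb.ne_zero X.injE
  obtain ⟨v, v', hv', h1, h2⟩ := hb
  have hli := block_li hv' h1 h2
  have hv : v ≠ 0 := by simpa using hli.ne_zero 0
  refine (frob_bound Y X (n + 1) (fun j => Dev Y X v (n + 1) j) fun j => Dev_good X hl hli h1 h2 Y _ j).mono ?_
  rw [finrank_coh', Fin.sum_univ_castSucc (n := n + 1)]
  refine le_trans (Finset.sum_le_sum fun j _ => ?_) (Nat.le_add_right _ _)
  exact Dev_finrank X hv Y n j (Nat.lt_succ_iff.1 j.2)

/-- the good subspace of a part, odd case -/
noncomputable def Dod (Y X : CVar E) (R : Submodule E X.Od) (v : X.Od) (n i : ℕ) : Submodule E (Part Y X n (i + 1)) :=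
  (ten' (SymP E (finrank E X.Ev) (n - (i + 1))) (ten (Y.Ev × Y.Od) (Dx R v i)) :
    Submodule E (((Y.Ev × Y.Od) ⊗[E] (⋀[E]^(i + 1) X.Od)) ⊗[E] (SymP E (finrank E X.Ev) (n - (i + 1)))))

lemma Dod_good [CharZero E] (X : CVar E) {l : E} (hl : l ≠ 0) {v v' : X.Od} (h1 : X.Fo v = l • v + v')
    (h2 : X.Fo v' = l • v') (R : Submodule E X.Od) (d d' : Module.Dual E X.Od) (hd : ∀ x : R, d x = 0)
    (hd' : ∀ x : R, d' x = 0) (h3 : d v = 1) (h5 : d' v' = 1) (h6 : d' v = 0) (Y : CVar E) (n i : ℕ) :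
    Good (partF Y X n (i + 1)) (Dod Y X R v n i) := by
  have := (((run_ext_aux hl v v' R d d' hd hd' h3 h5 h6 X.Fo (pow_vec hl h1 h2) i).ten (W := Y.Ev × Y.Od)
        (LinearMap.prodMap Y.Fe Y.Fo)).ten' (W := SymP E (finrank E X.Ev) (n - (i + 1)))
        (symOp (mat X.Fe) (n - (i + 1)))).good
  simp only [pow_zero] at this
  have e : Submodule.map (1 : Module.End E (⋀[E]^(i + 1) X.Od)) (Dx R v i) = Dx R v i := Submodule.map_id _
  rw [e] at this
  exact this

lemma Dod_finrank (X : CVar E) {v v' : X.Od} (R : Submodule E X.Od) (d d' : Module.Dual E X.Od)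
    (hR : finrank E R = finrank E X.Od - 2) (hd : ∀ x : R, d x = 0)
    (hd' : ∀ x : R, d' x = 0) (h3 : d v = 1) (h5 : d' v' = 1) (h6 : d' v = 0) (Y : CVar E) (n i : ℕ) :
    finrank E (Dod Y X R v n i) = betti Y * Nat.choose (finrank E X.Od - 2) i *
      Nat.multichoose (finrank E X.Ev) (n - (i + 1)) := by
  have e1 : finrank E (Dod Y X R v n i) = finrank E (ten (Y.Ev × Y.Od) (Dx R v i)) *
    finrank E (SymP E (finrank E X.Ev) (n - (i + 1))) := finrank_ten' _
  rw [e1, finrank_ten, finrank_Dx v v' R d d' hd hd' h3 h5 h6, hR, finrank_SymP, Module.finrank_prod]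
  rfl

/-- the law for the odd cohomology -/
theorem odd_law [IsAlgClosed E] [CharZero E] (X : CVar E) (h : ¬ X.Fo.IsSemisimple) (Y : CVar E) (n : ℕ) :
    SSCodim (Frob Y X (n + 1)) (betti Y * ∑ i ∈ Finset.range (n + 1),
      Nat.choose (finrank E X.Od - 2) i * Nat.multichoose (finrank E X.Ev) (n - i)) := by
  obtain ⟨l, hb⟩ := exists_hasBlock X.injO h
  have hl := hb.ne_zero X.injO
  obtain ⟨v, v', hv', h1, h2⟩ := hb
  have hli := block_li hv' h1 h2
  obtain ⟨R, d, d', hR, hd, hd', h3, h4, h5, h6⟩ := exists_compl hli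
  let D : ∀ j : Fin (n + 1 + 1), Submodule E (Part Y X (n + 1) j) :=
    Fin.cases ⊥ (fun i : Fin (n + 1) => Dod Y X R v (n + 1) i)
  have hgood : ∀ j : Fin (n + 1 + 1), Good (partF Y X (n + 1) j) (D j) := by
    intro j
    refine Fin.cases ?_ (fun i => ?_) j
    · exact good_bot _
    · exact Dod_good X hl h1 h2 R d d' hd hd' h3 h5 h6 Y (n + 1) i
  refine (frob_bound Y X (n + 1) D hgood).mono ?_
  rw [Fin.sum_univ_succ]
  refine le_trans ?_ (Nat.le_add_left _ _)
  rw [Finset.mul_sum, ← Fin.sum_univ_eq_sum_range (fun i => betti Y * (Nat.choose (finrank E X.Od - 2) i *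
    Nat.multichoose (finrank E X.Ev) (n - i)))]
  refine Finset.sum_le_sum fun i _ => ?_
  have e : finrank E (D i.succ) = betti Y * Nat.choose (finrank E X.Od - 2) i *
      Nat.multichoose (finrank E X.Ev) (n + 1 - (i + 1)) :=
    Dod_finrank X R d d' hR hd hd' h3 h5 h6 Y (n + 1) i
  have e3 : n + 1 - ((i : ℕ) + 1) = n - i := by omega
  rw [e, e3, mul_assoc]

end Pool.Agent.D0H93.SY
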