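import Pool.Agent.D0H93.SY.Main

/-!
The laws for symmetric powers.
-/

set_option autoImplicit false

open Module TensorProduct

namespace Pool.Agent.D0H93.SY

variable {E : Type} [Field E]

/-- `F` has a Jordan block of size at least two for the eigenvalue `l` -/
def HasBlock {V : Type} [AddCommGroup V] [Module E V] (F : Module.End E V) (l : E) : Prop :=
  ∃ v v' : V, v' ≠ 0 ∧ F v = l • v + v' ∧ F v' = l • v'

lemma hasBlock_of_ne {V : Type} [AddCommGroup V] [Module E V] {F : Module.End E V} {l : E}
    (h : eig F l ≠ mult F l) : HasBlock F l := by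
  by_contra hcon
  apply h
  have h1 : ∀ x : V, (F - l • (1 : Module.End E V)) ((F - l • (1 : Module.End E V)) x) = 0 →
      (F - l • (1 : Module.End E V)) x = 0 := by
    intro x hx
    by_contra hne
    have e : ∀ y, (F - l • (1 : Module.End E V)) y = F y - l • y := fun y => rfl
    refine hcon ⟨x, (F - l • (1 : Module.End E V)) x, hne, ?_, ?_⟩
    · rw [e]; abel
    · have := e ((F - l • (1 : Module.End E V)) x)
      rw [hx] at this
      exact (sub_eq_zero.1 this.symm)
  unfold eig mult
  have h2 : F.maxGenEigenspace l = F.eigenspace l := by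
    apply le_antisymm
    · intro x hx
      obtain ⟨k, hk⟩ := (Module.End.mem_maxGenEigenspace _ _ _).1 hx
      clear hx
      induction k generalizing x with
      | zero =>
        rw [pow_zero, Module.End.one_apply] at hk
        rw [hk]; exact zero_mem _
      | succ k ih =>
        rw [pow_succ, Module.End.mul_apply] at hk
        have h3 := ih hk
        have h4 : (F - l • (1 : Module.End E V)) ((F - l • (1 : Module.End E V)) x) = 0 := by
          rw [Module.End.mem_eigenspace_iff] at h3
          change F ((F - l • (1 : Module.End E V)) x) - l • ((F - l • (1 : Module.End E V)) x) = 0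
          rw [h3, sub_self]
        have h5 := h1 _ h4
        rw [Module.End.mem_eigenspace_iff]
        change F x - l • x = 0 at h5
        exact sub_eq_zero.1 h5
    · intro x hx
      refine (Module.End.mem_maxGenEigenspace _ _ _).2 ⟨1, ?_⟩
      rw [pow_one, LinearMap.sub_apply, LinearMap.smul_apply, Module.End.one_apply,
        Module.End.mem_eigenspace_iff.1 hx, sub_self]
  rw [h2]

lemma HasBlock.ne_zero {V : Type} [AddCommGroup V] [Module E V] {F : Module.End E V} (hF : Function.Injective F)
    {l : E} (h : HasBlock F l) : l ≠ 0 := by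
  obtain ⟨v, v', hv', h1, h2⟩ := h
  rintro rfl
  rw [zero_smul] at h2
  exact hv' (hF (by rw [h2, map_zero]))

lemma block_li {V : Type} [AddCommGroup V] [Module E V] {F : Module.End E V} {l : E} {v v' : V}
    (hv' : v' ≠ 0) (h1 : F v = l • v + v') (h2 : F v' = l • v') : LinearIndependent E ![v, v'] := by
  rw [LinearIndependent.pair_iff]
  intro s t hst
  have h3 := congrArg F hst
  rw [map_add, map_smul, map_smul, h1, h2, map_zero] at h3
  have h4 : s • v' = 0 := by
    have : s • v' = (s • (l • v + v') + t • l • v') - l • (s • v + t • v') := by module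
    rw [this, h3, hst, smul_zero, sub_zero]
  have hs : s = 0 := (smul_eq_zero.1 h4).resolve_right hv'
  rw [hs, zero_smul, zero_add] at hst
  exact ⟨hs, (smul_eq_zero.1 hst).resolve_right hv'⟩

lemma exists_hasBlock [IsAlgClosed E] {V : Type} [AddCommGroup V] [Module E V] [FiniteDimensional E V]
    {F : Module.End E V} (hF : Function.Injective F) (hs : ¬ F.IsSemisimple) : ∃ l : E, HasBlock F l := by
  obtain ⟨l, v, v', _, hv, h1, h2⟩ := exists_vec hF hs
  exact ⟨l, v, v', by simpa using hv.ne_zero 1, h1, h2⟩

lemma abs_law {M N : Type} [AddCommGroup M] [Module E M] [FiniteDimensional E M] [AddCommGroup N] [Module E N]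
    [FiniteDimensional E N] (Φ : Module.End E M) (Ψ : Module.End E N) (L L' : M →ₗ[E] N) {l : E} (hl : l ≠ 0)
    (hLinj : Function.Injective L) (e1 : ∀ x, Ψ (L x) = l • L (Φ x) + L' (Φ x))
    (e2 : ∀ x, Ψ (L' x) = l • L' (Φ x)) (D : Submodule E N) (hG : Good Ψ D) (hLD : ∀ x, L x ∈ D)
    (hinj : Function.Injective Ψ) (μ : E) : eig Ψ μ + mult Φ (μ / l) ≤ mult Ψ μ := by
  have hPm : (Φ.maxGenEigenspace (μ / l)).map L ≤ Ψ.maxGenEigenspace μ := by
    rintro _ ⟨x, hx, rfl⟩
    exact gen_aux Φ Ψ L L' hl e1 e2 μ x hx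
  have hdis : Ψ.eigenspace μ ⊓ (Φ.maxGenEigenspace (μ / l)).map L = ⊥ := by
    rw [eq_bot_iff]
    rintro x ⟨hx1, ⟨y, _, rfl⟩⟩
    rw [Submodule.mem_bot]
    by_cases hμ : μ = 0
    · have := Module.End.mem_eigenspace_iff.1 hx1
      rw [hμ, zero_smul] at this
      exact hinj (by rw [this, map_zero])
    · have := hG {μ} (fun _ => L y) (fun β hβ => by rw [Finset.mem_singleton.1 hβ]; exact hμ)
        (fun β hβ => by rw [Finset.mem_singleton.1 hβ]; exact Module.End.mem_eigenspace_iff.1 hx1)
        (by rw [Finset.sum_singleton]; exact hLD y)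
      rwa [Finset.sum_singleton] at this
  have hsum := Submodule.finrank_sup_add_finrank_inf_eq (Ψ.eigenspace μ) ((Φ.maxGenEigenspace (μ / l)).map L)
  rw [hdis, finrank_bot, add_zero, ← (Submodule.equivMapOfInjective L hLinj _).finrank_eq] at hsum
  unfold eig mult
  rw [← hsum]
  refine Submodule.finrank_mono (sup_le ?_ hPm)
  intro x hx
  refine (Module.End.mem_maxGenEigenspace _ _ _).2 ⟨1, ?_⟩
  rw [pow_one, LinearMap.sub_apply, LinearMap.smul_apply, Module.End.one_apply,
    Module.End.mem_eigenspace_iff.1 hx, sub_self]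

section comp
variable {r : ℕ} {W : Type} [AddCommGroup W] [Module E W]

/-- multiplication by the linear form of `a` on `W ⊗ Sym^m` -/
noncomputable def tL (W : Type) [AddCommGroup W] [Module E W] (a : Fin r → E) (m : ℕ) :
    (W ⊗[E] (SymP E r m)) →ₗ[E] (W ⊗[E] (SymP E r (m + 1))) := (mulV a m).lTensor W

lemma tL_inj {a : Fin r → E} (ha : a ≠ 0) (m : ℕ) : Function.Injective (tL W a m) :=
  Module.Flat.lTensor_preserves_injective_linearMap _ (mulV_inj ha m)

lemma tL_tmul (a : Fin r → E) (m : ℕ) (w : W) (p : SymP E r m) :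
    tL W a m (w ⊗ₜ[E] p) = w ⊗ₜ[E] mulV a m p := by
  unfold tL
  rw [LinearMap.lTensor_tmul]

lemma tL_comb (l : E) (a b : Fin r → E) (m : ℕ) (x : W ⊗[E] (SymP E r m)) :
    tL W (l • a + b) m x = l • tL W a m x + tL W b m x := by
  unfold tL
  rw [mulV_comb, LinearMap.lTensor_add, LinearMap.lTensor_smul]
  rfl

lemma tL_smul (l : E) (a : Fin r → E) (m : ℕ) (x : W ⊗[E] (SymP E r m)) :
    tL W (l • a) m x = l • tL W a m x := by
  have h := tL_comb l a 0 m x
  have h0 : tL W (0 : Fin r → E) m x = 0 := by
    unfold tL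
    have : mulV (0 : Fin r → E) m = 0 := by
      refine LinearMap.ext fun p => Subtype.ext ?_
      change lin 0 * _ = 0
      have : lin (0 : Fin r → E) = 0 := by unfold lin; simp
      rw [this, zero_mul]
    rw [this, LinearMap.lTensor_zero]
    rfl
  rwa [add_zero, h0, add_zero] at h

lemma tL_map (A : Matrix (Fin r) (Fin r) E) (G : Module.End E W) (a : Fin r → E) (m : ℕ)
    (x : W ⊗[E] (SymP E r m)) :
    TensorProduct.map G (symOp A (m + 1)) (tL W a m x) = tL W (A.mulVec a) m (TensorProduct.map G (symOp A m) x) := by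
  induction x with
  | zero => simp
  | tmul w p =>
    rw [tL_tmul, TensorProduct.map_tmul, TensorProduct.map_tmul, tL_tmul]
    have := LinearMap.congr_fun (symOp_mulV A a m) p
    rw [LinearMap.comp_apply, LinearMap.comp_apply] at this
    rw [this]
  | add x y hx hy => rw [map_add, map_add, map_add, map_add, hx, hy]

lemma tL_mem (a : Fin r → E) (m : ℕ) (x : W ⊗[E] (SymP E r m)) : tL W a m x ∈ ten W (Dm a (m + 1)) := by
  induction x with
  | zero => rw [map_zero]; exact zero_mem _
  | tmul w p =>
    rw [tL_tmul]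
    exact tmul_mem ⟨p, rfl⟩
  | add x y hx hy => rw [map_add]; exact add_mem hx hy

/-- the operator on `W ⊗ Sym^m` -/
noncomputable def wOp (G : Module.End E W) (A : Matrix (Fin r) (Fin r) E) (m : ℕ) :
    Module.End E (W ⊗[E] (SymP E r m)) := TensorProduct.map G (symOp A m)

/-- the law for one component -/
lemma comp_law0 [FiniteDimensional E W] [CharZero E] {V : Type} [AddCommGroup V] [Module E V]
    {F : Module.End E V} {l : E} (hl : l ≠ 0) {v v' : V} (hv : LinearIndependent E ![v, v'])
    (h1 : F v = l • v + v') (h2 : F v' = l • v') (b : Basis (Fin r) E V) (G : Module.End E W) (m : ℕ)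
    (hinj : Function.Injective (wOp G (LinearMap.toMatrix b b F) (m + 1))) (μ : E) :
    eig (wOp G (LinearMap.toMatrix b b F) (m + 1)) μ + mult (wOp G (LinearMap.toMatrix b b F) m) (μ / l) ≤
      mult (wOp G (LinearMap.toMatrix b b F) (m + 1)) μ := by
  have ha0 : b.equivFun v ≠ 0 := by
    intro h
    have : v = 0 := b.equivFun.injective (by rw [h, map_zero])
    exact (by simpa using hv.ne_zero 0 : v ≠ 0) this
  have hAa : (LinearMap.toMatrix b b F).mulVec (b.equivFun v) = l • b.equivFun v + b.equivFun v' := by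
    have := LinearMap.toMatrix_mulVec_repr b b F v
    rw [h1, map_add, map_smul] at this
    exact this
  have hAa' : (LinearMap.toMatrix b b F).mulVec (b.equivFun v') = l • b.equivFun v' := by
    have := LinearMap.toMatrix_mulVec_repr b b F v'
    rw [h2, map_smul] at this
    exact this
  have hG := ((run_sym hl hv h1 h2 b (m + 1)).ten (W := W) G).good
  rw [pow_zero] at hG
  refine abs_law _ _ (tL W (b.equivFun v) m) (tL W (b.equivFun v') m) hl (tL_inj ha0 m) (fun x => ?_)
    (fun x => ?_) (ten W (Dm (b.equivFun v) (m + 1))) hG (fun x => tL_mem _ _ _) hinj μ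
  · unfold wOp
    rw [tL_map, hAa, tL_comb]
  · unfold wOp
    rw [tL_map, hAa', tL_smul]

lemma comp_law [FiniteDimensional E W] [CharZero E] {V : Type} [AddCommGroup V] [Module E V]
    {F : Module.End E V} {l : E} (hl : l ≠ 0) {v v' : V} (hv : LinearIndependent E ![v, v'])
    (h1 : F v = l • v + v') (h2 : F v' = l • v') (b : Basis (Fin r) E V) (G : Module.End E W) (m m' : ℕ)
    (hm : m' = m + 1) (hinj : Function.Injective (wOp G (LinearMap.toMatrix b b F) m')) (μ : E) :
    eig (wOp G (LinearMap.toMatrix b b F) m') μ + mult (wOp G (LinearMap.toMatrix b b F) m) (μ / l) ≤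
      mult (wOp G (LinearMap.toMatrix b b F) m') μ := by
  subst hm
  exact comp_law0 hl hv h1 h2 b G m hinj μ

end comp

end Pool.Agent.D0H93.SY
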