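import Pool.Agent.D0H93.SY.Defs

/-!
The laws for symmetric powers.
-/

set_option autoImplicit false

open Module TensorProduct

namespace Pool.Agent.D0H93.SY

variable {E : Type} [Field E]

section pi
variable {ι : Type} [Fintype ι] {M : ι → Type} [∀ i, AddCommGroup (M i)] [∀ i, Module E (M i)]

/-- the product of submodules -/
def piEquiv (D : ∀ i, Submodule E (M i)) : (Submodule.pi Set.univ D) ≃ₗ[E] (∀ i, D i) where
  toFun x i := ⟨x.1 i, x.2 i (Set.mem_univ i)⟩
  invFun y := ⟨fun i => (y i).1, fun i _ => (y i).2⟩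
  left_inv _ := rfl
  right_inv _ := rfl
  map_add' _ _ := rfl
  map_smul' _ _ := rfl

lemma finrank_piSub [∀ i, FiniteDimensional E (M i)] (D : ∀ i, Submodule E (M i)) :
    finrank E (Submodule.pi Set.univ D) = ∑ i, finrank E (D i) := by
  rw [(piEquiv D).finrank_eq, Module.finrank_pi_fintype]

/-- the product of endomorphisms -/
def piEnd (Φ : ∀ i, Module.End E (M i)) : Module.End E (∀ i, M i) :=
  LinearMap.pi fun i => Φ i ∘ₗ LinearMap.proj i

omit [Fintype ι] in
lemma piEnd_pow (Φ : ∀ i, Module.End E (M i)) (μ : E) (k : ℕ) (x : ∀ i, M i) (i : ι) :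
    (((piEnd Φ - μ • 1) ^ k) x) i = ((Φ i - μ • 1) ^ k) (x i) := by
  induction k with
  | zero => rfl
  | succ k ih =>
    rw [pow_succ', pow_succ', Module.End.mul_apply, Module.End.mul_apply, ← ih]
    rfl

lemma eig_pi [∀ i, FiniteDimensional E (M i)] (Φ : ∀ i, Module.End E (M i)) (μ : E) :
    eig (piEnd Φ) μ = ∑ i, eig (Φ i) μ := by
  unfold eig
  rw [← finrank_piSub]
  have : (piEnd Φ).eigenspace μ = Submodule.pi Set.univ fun i => (Φ i).eigenspace μ := by
    ext x
    rw [Module.End.mem_eigenspace_iff, Submodule.mem_pi]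
    constructor
    · intro h i _
      rw [Module.End.mem_eigenspace_iff]
      exact congrFun h i
    · intro h
      funext i
      exact Module.End.mem_eigenspace_iff.1 (h i (Set.mem_univ i))
  rw [this]

lemma mult_pi [∀ i, FiniteDimensional E (M i)] (Φ : ∀ i, Module.End E (M i)) (μ : E) :
    mult (piEnd Φ) μ = ∑ i, mult (Φ i) μ := by
  unfold mult
  rw [← finrank_piSub]
  have : (piEnd Φ).maxGenEigenspace μ = Submodule.pi Set.univ fun i => (Φ i).maxGenEigenspace μ := by
    ext x
    rw [Submodule.mem_pi]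
    constructor
    · intro h i _
      obtain ⟨k, hk⟩ := (Module.End.mem_maxGenEigenspace _ _ _).1 h
      refine (Module.End.mem_maxGenEigenspace _ _ _).2 ⟨k, ?_⟩
      rw [← piEnd_pow, hk]
      rfl
    · intro h
      have h' : ∀ i, ∃ k : ℕ, ((Φ i - μ • 1) ^ k) (x i) = 0 := fun i =>
        (Module.End.mem_maxGenEigenspace _ _ _).1 (h i (Set.mem_univ i))
      choose k hk using h'
      refine (Module.End.mem_maxGenEigenspace _ _ _).2 ⟨∑ i, k i, ?_⟩
      funext i
      rw [piEnd_pow]
      have hle : k i ≤ ∑ i, k i := Finset.single_le_sum (fun _ _ => Nat.zero_le _) (Finset.mem_univ i)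
      obtain ⟨c, hc⟩ := Nat.exists_eq_add_of_le' hle
      rw [hc, pow_add, Module.End.mul_apply, hk, map_zero]
      rfl
  rw [this]

end pi

section comp
variable {r : ℕ}

/-- multiplication by the linear form of `v` -/
noncomputable def mulV (v : Fin r → E) (m : ℕ) : SymP E r m →ₗ[E] SymP E r (m + 1) :=
  { toFun := fun p => ⟨lin v * p, by
      have := (lin_homog v).mul p.2
      rwa [add_comm] at this⟩
    map_add' := fun x y => Subtype.ext (mul_add _ _ _)
    map_smul' := fun c x => Subtype.ext (mul_smul_comm _ _ _) }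

lemma mulV_inj {v : Fin r → E} (hv : v ≠ 0) (m : ℕ) : Function.Injective (mulV v m) := by
  intro x y hxy
  have h1 : lin v * (x : MvPolynomial (Fin r) E) = lin v * y := congrArg Subtype.val hxy
  exact Subtype.ext (mul_left_cancel₀ (lin_ne_zero hv) h1)

lemma lin_add (a b : Fin r → E) : lin (a + b) = lin a + lin b := by
  unfold lin
  rw [← Finset.sum_add_distrib]
  exact Finset.sum_congr rfl fun i _ => by rw [Pi.add_apply, map_add, add_mul]

lemma mulV_comb (l : E) (a b : Fin r → E) (m : ℕ) : mulV (l • a + b) m = l • mulV a m + mulV b m := by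
  refine LinearMap.ext fun p => Subtype.ext ?_
  change lin (l • a + b) * (p : MvPolynomial (Fin r) E) = l • (lin a * (p : MvPolynomial (Fin r) E)) + lin b * p
  rw [lin_add, lin_smul, MvPolynomial.smul_eq_C_mul]
  ring

lemma symOp_mulV (A : Matrix (Fin r) (Fin r) E) (v : Fin r → E) (m : ℕ) :
    symOp A (m + 1) ∘ₗ mulV v m = mulV (A.mulVec v) m ∘ₗ symOp A m := by
  refine LinearMap.ext fun p => Subtype.ext ?_
  change subst A (lin v * (p : MvPolynomial (Fin r) E)) = lin (A.mulVec v) * subst A p
  rw [map_mul, subst_lin]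

variable {W : Type} [AddCommGroup W] [Module E W] [FiniteDimensional E W]

lemma gen_aux {M N : Type} [AddCommGroup M] [Module E M] [AddCommGroup N] [Module E N]
    (Φ : Module.End E M) (Ψ : Module.End E N) (L L' : M →ₗ[E] N) {l : E} (hl : l ≠ 0)
    (h : ∀ x, Ψ (L x) = l • L (Φ x) + L' (Φ x)) (h' : ∀ x, Ψ (L' x) = l • L' (Φ x)) (μ : E) (x : M)
    (hx : x ∈ Φ.maxGenEigenspace (μ / l)) : L x ∈ Ψ.maxGenEigenspace μ := by
  have e : ∀ (K : M →ₗ[E] N) (y : M), l • K (Φ y) = l • K ((Φ - (μ / l) • (1 : Module.End E M)) y) + μ • K y := by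
    intro K y
    rw [LinearMap.sub_apply, LinearMap.smul_apply, Module.End.one_apply, map_sub, map_smul, smul_sub, smul_smul,
      mul_div_cancel₀ _ hl, sub_add_cancel]
  have hL' : ∀ y ∈ Φ.maxGenEigenspace (μ / l), L' y ∈ Ψ.maxGenEigenspace μ := by
    intro y hy
    obtain ⟨k, hk⟩ := (Module.End.mem_maxGenEigenspace _ _ _).1 hy
    refine (Module.End.mem_maxGenEigenspace _ _ _).2 ⟨k, ?_⟩
    have : ∀ (k : ℕ) (z : M), ((Ψ - μ • (1 : Module.End E N)) ^ k) (L' z) =
        l ^ k • L' (((Φ - (μ / l) • (1 : Module.End E M)) ^ k) z) := by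
      intro k
      induction k with
      | zero => intro z; simp
      | succ k ih =>
        intro z
        rw [pow_succ, Module.End.mul_apply, pow_succ, pow_succ, Module.End.mul_apply]
        have : (Ψ - μ • (1 : Module.End E N)) (L' z) = l • L' ((Φ - (μ / l) • (1 : Module.End E M)) z) := by
          rw [LinearMap.sub_apply, LinearMap.smul_apply, Module.End.one_apply, h', e]
          abel
        rw [this, map_smul, ih, smul_smul, mul_comm]
    rw [this, hk, map_zero, smul_zero]
  obtain ⟨k, hk⟩ := (Module.End.mem_maxGenEigenspace _ _ _).1 hx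
  clear hx
  induction k generalizing x with
  | zero =>
    rw [pow_zero, Module.End.one_apply] at hk
    rw [hk, map_zero]
    exact zero_mem _
  | succ k ih =>
    have hx : x ∈ Φ.maxGenEigenspace (μ / l) := (Module.End.mem_maxGenEigenspace _ _ _).2 ⟨_, hk⟩
    have hΦx : Φ x ∈ Φ.maxGenEigenspace (μ / l) := by
      obtain ⟨j, hj⟩ := (Module.End.mem_maxGenEigenspace _ _ _).1 hx
      refine (Module.End.mem_maxGenEigenspace _ _ _).2 ⟨j, ?_⟩
      have hc : Commute ((Φ - (μ / l) • (1 : Module.End E M)) ^ j) Φ := by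
        apply Commute.pow_left
        exact (Commute.refl Φ).sub_left ((Commute.one_left Φ).smul_left _)
      have := LinearMap.congr_fun hc.eq x
      rw [Module.End.mul_apply, Module.End.mul_apply, hj, map_zero] at this
      exact this
    have h1 : (Ψ - μ • (1 : Module.End E N)) (L x) ∈ Ψ.maxGenEigenspace μ := by
      have : (Ψ - μ • (1 : Module.End E N)) (L x) =
          l • L ((Φ - (μ / l) • (1 : Module.End E M)) x) + L' (Φ x) := by
        rw [LinearMap.sub_apply, LinearMap.smul_apply, Module.End.one_apply, h, e]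
        abel
      rw [this]
      refine add_mem (Submodule.smul_mem _ _ (ih _ ?_)) (hL' _ hΦx)
      rw [pow_succ, Module.End.mul_apply] at hk
      exact hk
    obtain ⟨j, hj⟩ := (Module.End.mem_maxGenEigenspace _ _ _).1 h1
    refine (Module.End.mem_maxGenEigenspace _ _ _).2 ⟨j + 1, ?_⟩
    rw [pow_succ, Module.End.mul_apply]
    exact hj

end comp

end Pool.Agent.D0H93.SY
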