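import Mathlib
import Pool.Agent.D0H89.OF.Exp

/-!
The algebraic lemma: if for all `k` the linear form of `a + (k / l) b` divides `∑ β ^ k p_β` then all
`p_β` vanish.
-/

set_option autoImplicit false

open Module

namespace Pool.Agent.D0H93.SY

variable {E : Type} [Field E] {r : ℕ}

/-- the linear form with the coefficients `a` -/
noncomputable def lin (a : Fin r → E) : MvPolynomial (Fin r) E :=
  ∑ i, MvPolynomial.C (a i) * MvPolynomial.X i

lemma eval_lin (a z : Fin r → E) : MvPolynomial.eval z (lin a) = ∑ i, a i * z i := by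
  simp [lin]

lemma lin_ne_zero {a : Fin r → E} (ha : a ≠ 0) : lin a ≠ 0 := by
  intro h
  obtain ⟨i, hi⟩ := Function.ne_iff.1 ha
  have := eval_lin a (Pi.single i 1)
  rw [h] at this
  simp [Pi.single_apply] at this
  exact hi this.symm

lemma exists_dual {a b : Fin r → E} (hab : LinearIndependent E ![a, b]) :
    ∃ d : Fin r → E, (∑ i, a i * d i) = 1 ∧ (∑ i, b i * d i) = 0 := by
  have hn : a ∉ Submodule.span E {b} := by
    intro h
    obtain ⟨c, hc⟩ := Submodule.mem_span_singleton.1 h
    have := LinearIndependent.pair_iff.1 hab 1 (-c) (by rw [← hc]; module)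
    exact one_ne_zero this.1
  obtain ⟨f, hf, hfa⟩ := Submodule.exists_le_ker_of_notMem hn
  have hfb : f b = 0 := by
    have : b ∈ LinearMap.ker f := hfa (Submodule.mem_span_singleton_self b)
    exact this
  have hs : ∀ x : Fin r → E, f x = ∑ i, x i * f (Pi.single i 1) := by
    intro x
    conv_lhs => rw [← Finset.univ_sum_single x]
    rw [map_sum]
    refine Finset.sum_congr rfl fun i _ => ?_
    have : (Pi.single i (x i) : Fin r → E) = x i • Pi.single i 1 := by
      rw [← Pi.single_smul]; simp
    rw [this, map_smul, smul_eq_mul]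
  refine ⟨fun i => f (Pi.single i 1) / f a, ?_, ?_⟩
  · have : ∀ i, a i * (f (Pi.single i 1) / f a) = (a i * f (Pi.single i 1)) / f a := fun i => by ring
    rw [Finset.sum_congr rfl fun i _ => this i, ← Finset.sum_div, ← hs, div_self hf]
  · have : ∀ i, b i * (f (Pi.single i 1) / f a) = (b i * f (Pi.single i 1)) / f a := fun i => by ring
    rw [Finset.sum_congr rfl fun i _ => this i, ← Finset.sum_div, ← hs, hfb, zero_div]

lemma sum_aux (a b d z : Fin r → E) (κ c : E) :
    ∑ i, (a i + κ * b i) * (z i - c * d i) =
      ∑ i, a i * z i + κ * (∑ i, b i * z i) - c * (∑ i, a i * d i) - κ * c * (∑ i, b i * d i) := by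
  rw [Finset.mul_sum, Finset.mul_sum, Finset.mul_sum, ← Finset.sum_add_distrib,
    ← Finset.sum_sub_distrib, ← Finset.sum_sub_distrib]
  exact Finset.sum_congr rfl fun i _ => by ring

theorem poly_key [CharZero E] {a b : Fin r → E} (hab : LinearIndependent E ![a, b]) {l : E}
    (hl : l ≠ 0) (B : Finset E) (hB : ∀ β ∈ B, β ≠ 0) (p : E → MvPolynomial (Fin r) E)
    (h : ∀ k : ℕ, lin (a + ((k : E) / l) • b) ∣ ∑ β ∈ B, MvPolynomial.C (β ^ k) * p β) :
    ∀ β ∈ B, p β = 0 := by
  obtain ⟨d, had, hbd⟩ := exists_dual hab
  have hb : b ≠ 0 := by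
    have := hab.ne_zero 1
    simpa using this
  have hev : ∀ z : Fin r → E, (∑ i, b i * z i) ≠ 0 → ∀ β ∈ B, MvPolynomial.eval z (p β) = 0 := by
    intro z hs
    set s := ∑ i, b i * z i with hsd
    set t := ∑ i, a i * z i with htd
    set w : Fin r → Polynomial E := fun i => Polynomial.C (z i - t * d i) - Polynomial.C (s / l * d i) * Polynomial.X with hw
    set Q : E → Polynomial E := fun β => MvPolynomial.eval₂ Polynomial.C w (p β) with hQ
    have hQe : ∀ (x : E) (β : E), (Q β).eval x =
        MvPolynomial.eval (fun i => z i - t * d i - s / l * d i * x) (p β) := by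
      intro x β
      rw [hQ]
      simp only
      have e1 : (Polynomial.evalRingHom x).comp Polynomial.C = RingHom.id E := by ext; simp
      have e2 : (fun i => Polynomial.evalRingHom x (w i)) =
          fun i => z i - t * d i - s / l * d i * x := by
        funext i; simp [hw]
      rw [← Polynomial.coe_evalRingHom, MvPolynomial.hom_eval₂, e1]
      exact congrArg (fun v => MvPolynomial.eval₂ (RingHom.id E) v (p β)) e2
    have h0 : ∀ k : ℕ, ∑ β ∈ B, (Q β).eval (k : E) * β ^ k = 0 := by
      intro k
      have h1 : ∑ β ∈ B, (Q β).eval (k : E) * β ^ k =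
          MvPolynomial.eval (fun i => z i - t * d i - s / l * d i * (k : E))
            (∑ β ∈ B, MvPolynomial.C (β ^ k) * p β) := by
        rw [map_sum]
        refine Finset.sum_congr rfl fun β _ => ?_
        rw [map_mul, MvPolynomial.eval_C, hQe, mul_comm]
      obtain ⟨q, hq⟩ := h k
      rw [h1, hq, map_mul, eval_lin]
      have h2 : ∑ i, (a + ((k : E) / l) • b) i * (z i - t * d i - s / l * d i * (k : E)) =
          t + k / l * s - (t + s / l * k) * (∑ i, a i * d i)
            - k / l * (t + s / l * k) * (∑ i, b i * d i) := by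
        rw [htd, hsd, ← sum_aux]
        refine Finset.sum_congr rfl fun i _ => ?_
        simp only [Pi.add_apply, Pi.smul_apply, smul_eq_mul]
        ring
      rw [h2, had, hbd]
      ring
    have hz := Pool.Agent.D0H89.OF.exp_poly B hB Q h0
    intro β hβ
    have h3 := hQe (- t * l / s) β
    rw [hz β hβ, Polynomial.eval_zero] at h3
    rw [h3]
    congr 1
    congr 1
    funext i
    field_simp
    ring
  intro β hβ
  have : p β * lin b = 0 := by
    apply MvPolynomial.funext
    intro z
    rw [map_mul, map_zero, eval_lin]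
    by_cases hs : (∑ i, b i * z i) = 0
    · rw [hs, mul_zero]
    · rw [hev z hs β hβ, zero_mul]
  exact (mul_eq_zero.1 this).resolve_right (lin_ne_zero hb)

end Pool.Agent.D0H93.SY
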