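import Pool.Agent.D0H93.SY.Poly
import Pool.Agent.D0H93.SY.Abs

/-!
Homogeneous polynomials as symmetric powers, the operators, and the subspaces of the multiples of a
linear form.
-/

set_option autoImplicit false

open Module TensorProduct

namespace Pool.Agent.D0H93.SY

variable {E : Type} [Field E] {r : ℕ}

/-- the homogeneous polynomials of degree `m` in `r` variables: the `m`-th symmetric power of `E ^ r` -/
abbrev SymP (E : Type) [Field E] (r m : ℕ) : Submodule E (MvPolynomial (Fin r) E) :=
  MvPolynomial.homogeneousSubmodule (Fin r) E m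

instance (r m : ℕ) : FiniteDimensional E (SymP E r m) :=
  Module.Finite.iff_fg.2 (MvPolynomial.homogeneousSubmodule_fg (Fin r) E m)

lemma finrank_SymP (r m : ℕ) : finrank E (SymP E r m) = Nat.multichoose r m := by
  classical
  have e1 := (LinearEquiv.ofEq _ _ (MvPolynomial.homogeneousSubmodule_eq_finsupp_supported (Fin r) E m)).trans
    (AddMonoidAlgebra.supportedEquivFinsupp (R := E) (S := E) {d : Fin r →₀ ℕ | d.degree = m})
  have e2 : ({d : Fin r →₀ ℕ | d.degree = m} : Set (Fin r →₀ ℕ)) ≃ Sym (Fin r) m :=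
    (Equiv.subtypeEquivRight fun d => by rfl).trans (Sym.equivNatSum (Fin r) m).symm
  have : Fintype ({d : Fin r →₀ ℕ | d.degree = m} : Set (Fin r →₀ ℕ)) := Fintype.ofEquiv _ e2.symm
  rw [e1.finrank_eq, Module.finrank_finsupp_self, Fintype.card_congr e2, Sym.card_sym_eq_multichoose,
    Fintype.card_fin]

/-- the substitution `X_j ↦ ∑ A_ij X_i` -/
noncomputable def subst (A : Matrix (Fin r) (Fin r) E) : MvPolynomial (Fin r) E →ₐ[E] MvPolynomial (Fin r) E :=
  MvPolynomial.aeval fun j => lin fun i => A i j

lemma lin_homog (a : Fin r → E) : (lin a).IsHomogeneous 1 := by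
  unfold lin
  refine MvPolynomial.IsHomogeneous.sum _ _ _ fun i _ => ?_
  have := (MvPolynomial.isHomogeneous_C (Fin r) (a i)).mul (MvPolynomial.isHomogeneous_X E i)
  simpa using this

lemma subst_homog (A : Matrix (Fin r) (Fin r) E) {m : ℕ} {p : MvPolynomial (Fin r) E}
    (hp : p.IsHomogeneous m) : (subst A p).IsHomogeneous m := by
  have := hp.aeval (fun j => lin fun i => A i j) (n := 1) (fun j => lin_homog _)
  rwa [one_mul] at this

lemma subst_lin (A : Matrix (Fin r) (Fin r) E) (v : Fin r → E) : subst A (lin v) = lin (A.mulVec v) := by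
  have h1 : subst A (lin v) = ∑ j, ∑ i, MvPolynomial.C (A i j * v j) * MvPolynomial.X i := by
    unfold lin
    rw [map_sum]
    refine Finset.sum_congr rfl fun j _ => ?_
    have h2 : subst A (MvPolynomial.C (v j)) = MvPolynomial.C (v j) := (subst A).commutes (v j)
    have h3 : subst A (MvPolynomial.X j) = lin fun i => A i j := by
      unfold subst; rw [MvPolynomial.aeval_X]
    rw [map_mul, h2, h3]
    unfold lin
    rw [Finset.mul_sum]
    refine Finset.sum_congr rfl fun i _ => ?_
    rw [← mul_assoc, ← map_mul, mul_comm (v j)]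
  rw [h1, Finset.sum_comm]
  unfold lin
  refine Finset.sum_congr rfl fun i _ => ?_
  rw [← Finset.sum_mul, ← map_sum]
  rfl

/-- the operator on the homogeneous polynomials of degree `m` -/
noncomputable def symOp (A : Matrix (Fin r) (Fin r) E) (m : ℕ) : Module.End E (SymP E r m) :=
  (subst A).toLinearMap.restrict fun _ hp => subst_homog A hp

lemma symOp_coe (A : Matrix (Fin r) (Fin r) E) (m : ℕ) (p : SymP E r m) :
    ((symOp A m p : SymP E r m) : MvPolynomial (Fin r) E) = subst A p := rfl

/-- the multiples of the linear form of `v` in degree `m` -/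
noncomputable def Dm (v : Fin r → E) (m : ℕ) : Submodule E (SymP E r m) where
  carrier := {p | lin v ∣ (p : MvPolynomial (Fin r) E)}
  add_mem' := fun ha hb => dvd_add ha hb
  zero_mem' := dvd_zero _
  smul_mem' := fun c x hx => by
    obtain ⟨q, hq⟩ := hx
    exact ⟨c • q, by rw [Submodule.coe_smul, hq, mul_smul_comm]⟩

lemma mem_Dm {v : Fin r → E} {m : ℕ} {p : SymP E r m} :
    p ∈ Dm v m ↔ lin v ∣ (p : MvPolynomial (Fin r) E) := Iff.rfl

lemma finrank_Dm {v : Fin r → E} (hv : v ≠ 0) (m : ℕ) :
    finrank E (SymP E r m) ≤ finrank E (Dm v (m + 1)) := by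
  let f : SymP E r m →ₗ[E] Dm v (m + 1) :=
    { toFun := fun p => ⟨⟨lin v * p, by
        have := (lin_homog v).mul p.2
        rwa [add_comm] at this⟩, ⟨p, rfl⟩⟩
      map_add' := fun x y => by
        apply Subtype.ext; apply Subtype.ext
        exact mul_add _ _ _
      map_smul' := fun c x => by
        apply Subtype.ext; apply Subtype.ext
        exact mul_smul_comm _ _ _ }
  refine LinearMap.finrank_le_finrank_of_injective (f := f) ?_
  intro x y hxy
  have h1 : lin v * (x : MvPolynomial (Fin r) E) = lin v * y :=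
    congrArg (fun z : Dm v (m + 1) => ((z : SymP E r (m + 1)) : MvPolynomial (Fin r) E)) hxy
  exact Subtype.ext (mul_left_cancel₀ (lin_ne_zero hv) h1)

lemma symOp_Dm (A : Matrix (Fin r) (Fin r) E) (v : Fin r → E) (m : ℕ) (p : SymP E r m) (hp : p ∈ Dm v m) :
    symOp A m p ∈ Dm (A.mulVec v) m := by
  obtain ⟨q, hq⟩ := hp
  refine ⟨subst A q, ?_⟩
  rw [symOp_coe, hq, map_mul, subst_lin]

lemma lin_smul (c : E) (a : Fin r → E) : lin (c • a) = MvPolynomial.C c * lin a := by
  unfold lin
  rw [Finset.mul_sum]
  refine Finset.sum_congr rfl fun i _ => ?_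
  rw [Pi.smul_apply, smul_eq_mul, map_mul, mul_assoc]

/-- a block of size two of an injective endomorphism which is not semisimple, in coordinates -/
lemma exists_vec [IsAlgClosed E] {V : Type} [AddCommGroup V] [Module E V] [FiniteDimensional E V]
    {F : Module.End E V} (hF : Function.Injective F) (hs : ¬ F.IsSemisimple) :
    ∃ (l : E) (v v' : V), l ≠ 0 ∧ LinearIndependent E ![v, v'] ∧ F v = l • v + v' ∧ F v' = l • v' := by
  obtain ⟨l, j, hj, hFj⟩ := Pool.Agent.D0H15.ZO.exists_blk hs
  have h1 : F (j (0, 1)) = l • j (0, 1) + j (1, 0) := by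
    have := LinearMap.congr_fun hFj (0, 1)
    rw [LinearMap.comp_apply, LinearMap.comp_apply] at this
    rw [this, ← map_smul, ← map_add]
    congr 1
    simp [Pool.Agent.D0H15.ZO.blk]
  have h2 : F (j (1, 0)) = l • j (1, 0) := by
    have := LinearMap.congr_fun hFj (1, 0)
    rw [LinearMap.comp_apply, LinearMap.comp_apply] at this
    rw [this, ← map_smul]
    congr 1
    simp [Pool.Agent.D0H15.ZO.blk]
  refine ⟨l, j (0, 1), j (1, 0), ?_, ?_, h1, h2⟩
  · rintro rfl
    rw [zero_smul] at h2
    have h3 : j (1, 0) = 0 := hF (by rw [h2, map_zero])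
    have h4 : ((1 : E), (0 : E)) = 0 := hj (by rw [h3, map_zero])
    exact one_ne_zero (congrArg Prod.fst h4)
  · rw [LinearIndependent.pair_iff]
    intro s t hst
    rw [← map_smul, ← map_smul, ← map_add] at hst
    have h4 : s • ((0 : E), (1 : E)) + t • ((1 : E), (0 : E)) = 0 := hj (by rw [hst, map_zero])
    have h5 := congrArg Prod.fst h4
    have h6 := congrArg Prod.snd h4
    simp at h5 h6
    exact ⟨h6, h5⟩

lemma pow_vec {V : Type} [AddCommGroup V] [Module E V] {F : Module.End E V} {l : E} (hl : l ≠ 0)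
    {v v' : V} (h : F v = l • v + v') (h' : F v' = l • v') (k : ℕ) :
    (F ^ k) v = l ^ k • (v + ((k : E) / l) • v') := by
  induction k with
  | zero => simp
  | succ k ih =>
    rw [pow_succ', Module.End.mul_apply, ih, map_smul, map_add, map_smul, h, h', Nat.cast_succ]
    have : l ^ k • (l • v + v' + ((k : E) / l) • l • v') = l ^ (k + 1) • (v + (((k : E) + 1) / l) • v') := by
      have e : l ^ (k + 1) * (((k : E) + 1) / l) = l ^ k + l ^ k * ((k : E) / l) * l := by
        field_simp
        ring
      rw [smul_add, smul_add, smul_add, smul_smul, smul_smul, smul_smul, smul_smul, e, add_smul, pow_succ,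
        add_assoc]
    exact this

/-- The multiples of the linear forms of the `F ^ k v`. -/
theorem run_sym [CharZero E] {V : Type} [AddCommGroup V] [Module E V] {F : Module.End E V} {l : E}
    (hl : l ≠ 0) {v v' : V} (hv : LinearIndependent E ![v, v']) (h : F v = l • v + v')
    (h' : F v' = l • v') (b : Basis (Fin r) E V) (m : ℕ) :
    Run (symOp (LinearMap.toMatrix b b F) m) (fun k => Dm (b.equivFun ((F ^ k) v)) m) := by
  refine ⟨fun k n hn => ?_, fun B p hB hp => ?_⟩
  · have h1 := symOp_Dm (LinearMap.toMatrix b b F) _ m n hn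
    have h2 : (LinearMap.toMatrix b b F).mulVec (b.equivFun ((F ^ k) v)) = b.equivFun ((F ^ (k + 1)) v) := by
      rw [pow_succ', Module.End.mul_apply]
      have := LinearMap.toMatrix_mulVec_repr b b F ((F ^ k) v)
      exact this
    rwa [h2] at h1
  · have hli : LinearIndependent E ![b.equivFun v, b.equivFun v'] := by
      rw [LinearIndependent.pair_iff] at hv ⊢
      intro s t hst
      refine hv s t (b.equivFun.injective ?_)
      rw [map_add, map_smul, map_smul, hst, map_zero]
    have key := poly_key hli hl B hB (fun β => ((p β : SymP E r m) : MvPolynomial (Fin r) E)) (fun k => by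
      have h3 := hp k
      rw [mem_Dm, pow_vec hl h h' k, map_smul, lin_smul, map_add, map_smul] at h3
      have h4 : (((∑ β ∈ B, β ^ k • p β : SymP E r m)) : MvPolynomial (Fin r) E) =
          ∑ β ∈ B, MvPolynomial.C (β ^ k) * ((p β : SymP E r m) : MvPolynomial (Fin r) E) := by
        rw [Submodule.coe_sum]
        refine Finset.sum_congr rfl fun β _ => ?_
        rw [Submodule.coe_smul, MvPolynomial.smul_eq_C_mul]
      rw [h4] at h3
      exact dvd_of_mul_left_dvd h3)
    refine Finset.sum_eq_zero fun β hβ => Subtype.ext (key β hβ)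

end Pool.Agent.D0H93.SY
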